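import Pool.Agent.MP_d12f76_al.LB.Tables

/-!
# MP_d12f76_al: the computations

All statements are checked by the kernel.
-/

set_option autoImplicit false

namespace Pool.Agent.MP_d12f76_al.LB

/-- some number below `k` -/
noncomputable def anyb (f : ℕ → Bool) (k : ℕ) : Bool :=
  Nat.rec (motive := fun _ => Bool) false (fun k ih => bif f k then true else ih) k

theorem anyb_spec {f : ℕ → Bool} {k : ℕ} (h : anyb f k = true) : ∃ x < k, f x = true := by
  induction k with
  | zero => exact absurd h Bool.false_ne_true
  | succ k ih =>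
    have h1 : (bif f k then true else anyb f k) = true := h
    cases hf : f k
    · rw [hf, cond_false] at h1
      obtain ⟨x, hx, hx'⟩ := ih h1
      exact ⟨x, Nat.lt_succ_of_lt hx, hx'⟩
    · exact ⟨k, Nat.lt_succ_self k, hf⟩

/-- `S` and `T` are inverse to each other -/
noncomputable def ckInv (S T : ℕ) : Bool :=
  allb (fun x => bif Nat.beq (tab S (tab T x)) x then Nat.beq (tab T (tab S x)) x else false) 2048

/-- `S` and `T` commute -/
noncomputable def ckComm (S T : ℕ) : Bool := allb (fun x => Nat.beq (tab S (tab T x)) (tab T (tab S x))) 2048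

/-- `T` adds the bit `i` and does not change the bits below `i` -/
noncomputable def ckBit (i T : ℕ) : Bool :=
  allb (fun x => Nat.beq (Nat.mod (Nat.xor (tab T x) x) (Nat.pow 2 (Nat.succ i))) (Nat.pow 2 i)) 2048

theorem inv0 : ckInv tL0 tM0 = true := by decide +kernel
theorem inv1 : ckInv tL1 tM1 = true := by decide +kernel

theorem comm0 : ∀ T ∈ Ts, ckComm tL0 T = true := by
  simp only [Ts, List.forall_mem_cons, List.not_mem_nil, false_imp_iff, implies_true, and_true]
  refine ⟨?_, ?_, ?_, ?_, ?_, ?_, ?_, ?_, ?_, ?_, ?_⟩ <;> decide +kernel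

theorem comm1 : ∀ T ∈ Ts, ckComm tL1 T = true := by
  simp only [Ts, List.forall_mem_cons, List.not_mem_nil, false_imp_iff, implies_true, and_true]
  refine ⟨?_, ?_, ?_, ?_, ?_, ?_, ?_, ?_, ?_, ?_, ?_⟩ <;> decide +kernel

theorem bit0 : ckBit 0 tT0 = true := by decide +kernel
theorem bit1 : ckBit 1 tT1 = true := by decide +kernel
theorem bit2 : ckBit 2 tT2 = true := by decide +kernel
theorem bit3 : ckBit 3 tT3 = true := by decide +kernel
theorem bit4 : ckBit 4 tT4 = true := by decide +kernel
theorem bit5 : ckBit 5 tT5 = true := by decide +kernel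
theorem bit6 : ckBit 6 tT6 = true := by decide +kernel
theorem bit7 : ckBit 7 tT7 = true := by decide +kernel
theorem bit8 : ckBit 8 tT8 = true := by decide +kernel
theorem bit9 : ckBit 9 tT9 = true := by decide +kernel
theorem bit10 : ckBit 10 tT10 = true := by decide +kernel

theorem mul_zero_left : allb (fun y => Nat.beq (mul 0 y) y) 2048 = true := by decide +kernel
theorem mul_iv : allb (fun x => Nat.beq (mul x (iv x)) 0) 2048 = true := by decide +kernel

theorem low_ck : allb (fun t => bif Nat.beq t 0 then true else
    anyb (fun l => bif Nat.beq (low 11 t) (Nat.pow 2 l) then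
      Nat.beq (Nat.mod t (Nat.pow 2 (Nat.succ l))) (Nat.pow 2 l) else false) 11) 2048 = true := by
  decide +kernel

theorem par_ck : allb (fun x => par x == par0 11 x) 2048 = true := by decide +kernel

/-- the test of the tree of subgroups -/
theorem chk_ok : chk LB.mul iv par 11 5 5 E0 = true := by decide +kernel

end Pool.Agent.MP_d12f76_al.LB
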