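import Mathlib

/-!
# MP_d12f76_al: the wreath product with a group of order two

`AbBound X s` says that every abelian section of `X` has order at most `s` (`s` multiplied by the
order of the derived subgroup bounds the order of every subgroup). If `2 ≤ s` then the wreath
product of `X` with a group of order two satisfies `AbBound _ (s ^ 2)`.
-/

set_option autoImplicit false

namespace Pool.Agent.MP_d12f76_al.LB

open scoped commutatorElement

/-- every abelian section has order at most `s` -/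
def AbBound (X : Type) [Group X] (s : ℕ) : Prop :=
  ∀ H : Subgroup X, Nat.card H ≤ s * Nat.card (⁅H, H⁆ : Subgroup X)

theorem card_map_inj {G X : Type} [Group G] [Group X] (f : G →* X)
    (hf : Function.Injective f) (H : Subgroup G) : Nat.card (H.map f) = Nat.card H :=
  Nat.card_congr (H.equivMapOfInjective f hf).symm.toEquiv

theorem AbBound.subgroup {X : Type} [Group X] {s : ℕ} (h : AbBound X s) (K : Subgroup X) :
    AbBound K s := by
  intro H
  have h1 := h (H.map K.subtype)
  rw [← Subgroup.map_commutator, card_map_inj _ K.subtype_injective,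
    card_map_inj _ K.subtype_injective] at h1
  exact h1

theorem AbBound.equiv {X Y : Type} [Group X] [Group Y] {s : ℕ} (h : AbBound X s) (e : Y ≃* X) :
    AbBound Y s := by
  intro H
  have h1 := h (H.map e.toMonoidHom)
  rw [← Subgroup.map_commutator, card_map_inj _ e.injective, card_map_inj _ e.injective] at h1
  exact h1

theorem two_mul_card_le' {Γ : Type} [Group Γ] [Finite Γ] {K M : Subgroup Γ} (h : K < M) :
    2 * Nat.card K ≤ Nat.card M := by
  obtain ⟨r, hr⟩ := Subgroup.card_dvd_of_le h.le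
  have h1 : 0 < Nat.card M := Nat.card_pos
  have h2 : r ≠ 0 := by
    rintro rfl
    rw [mul_zero] at hr
    omega
  have h3 : r ≠ 1 := by
    rintro rfl
    rw [mul_one] at hr
    exact h.ne (Subgroup.eq_of_le_of_card_ge h.le hr.le)
  have h4 : 2 ≤ r := by omega
  calc 2 * Nat.card K ≤ r * Nat.card K := Nat.mul_le_mul_right _ h4
    _ = Nat.card M := by rw [hr, mul_comm]

/-- a central-type extension by one element is still abelian modulo `⁅N, ⊤⁆` -/
theorem exists_larger {K : Type} [Group K] [Finite K] (N : Subgroup K) [N.Normal] (hN : N ≠ ⊤) :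
    ∃ L : Subgroup K, 2 * Nat.card N ≤ Nat.card L ∧ ⁅L, L⁆ ≤ ⁅N, (⊤ : Subgroup K)⁆ := by
  obtain ⟨x, hx⟩ : ∃ x, x ∉ N := by
    by_contra h
    push Not at h
    exact hN (eq_top_iff.2 fun y _ => h y)
  refine ⟨N ⊔ Subgroup.zpowers x, two_mul_card_le' (lt_of_le_of_ne le_sup_left fun h => hx ?_), ?_⟩
  · rw [h]
    exact le_sup_right (a := N) (Subgroup.mem_zpowers x)
  · rw [Subgroup.commutator_le]
    intro g₁ hg₁ g₂ hg₂
    obtain ⟨n₁, hn₁, z₁, hz₁, rfl⟩ := Subgroup.mem_sup_of_normal_left.1 hg₁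
    obtain ⟨n₂, hn₂, z₂, hz₂, rfl⟩ := Subgroup.mem_sup_of_normal_left.1 hg₂
    rw [← QuotientGroup.eq_one_iff]
    have hc : ∀ n ∈ N, ∀ y : K, Commute (n : K ⧸ ⁅N, (⊤ : Subgroup K)⁆) (y : K) := by
      intro n hn y
      rw [← commutatorElement_eq_one_iff_commute]
      have h1 : ((⁅n, y⁆ : K) : K ⧸ ⁅N, (⊤ : Subgroup K)⁆) = 1 := by
        rw [QuotientGroup.eq_one_iff]
        exact Subgroup.commutator_mem_commutator hn (Subgroup.mem_top y)
      exact h1
    have h2 : Commute (((n₁ * z₁ : K)) : K ⧸ ⁅N, (⊤ : Subgroup K)⁆) ((n₂ * z₂ : K)) := by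
      obtain ⟨i, rfl⟩ := Subgroup.mem_zpowers_iff.1 hz₁
      obtain ⟨j, rfl⟩ := Subgroup.mem_zpowers_iff.1 hz₂
      have h3 : Commute ((x ^ i : K) : K ⧸ ⁅N, (⊤ : Subgroup K)⁆) ((x ^ j : K)) := by
        show ((x ^ i * x ^ j : K) : K ⧸ ⁅N, (⊤ : Subgroup K)⁆) = ((x ^ j * x ^ i : K))
        rw [← zpow_add, ← zpow_add, add_comm]
      rw [QuotientGroup.mk_mul, QuotientGroup.mk_mul]
      have h4 := hc n₁ hn₁ (n₂ * x ^ j)
      have h5 := hc n₂ hn₂ (x ^ i)
      rw [QuotientGroup.mk_mul] at h4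
      exact h4.mul_left (h5.symm.mul_right h3)
    have h6 := commutatorElement_eq_one_iff_commute.2 h2
    exact h6

theorem key_ineq {K : Type} [Group K] [Finite K] {s : ℕ} (hs : 2 ≤ s) (hK : AbBound K s)
    (N : Subgroup K) [N.Normal] :
    2 * (Nat.card K * Nat.card N) ≤ s ^ 2 *
      (Nat.card (N ⊔ ⁅(⊤ : Subgroup K), ⊤⁆ : Subgroup K) *
        Nat.card (⁅N, (⊤ : Subgroup K)⁆ : Subgroup K)) := by
  have h1 : Nat.card K ≤ s * Nat.card (⁅(⊤ : Subgroup K), ⊤⁆ : Subgroup K) := by
    have h2 := hK ⊤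
    rwa [Subgroup.card_top] at h2
  by_cases hN : N = ⊤
  · subst hN
    have h3 : ((⊤ : Subgroup K) ⊔ ⁅(⊤ : Subgroup K), ⊤⁆) = ⊤ := top_sup_eq _
    rw [h3, Subgroup.card_top]
    calc 2 * (Nat.card K * Nat.card K)
        ≤ s * (Nat.card K * (s * Nat.card (⁅(⊤ : Subgroup K), ⊤⁆ : Subgroup K))) :=
          Nat.mul_le_mul hs (Nat.mul_le_mul_left _ h1)
      _ = _ := by ring
  · obtain ⟨L, hL1, hL2⟩ := exists_larger N hN
    have h3 : 2 * Nat.card N ≤ s * Nat.card (⁅N, (⊤ : Subgroup K)⁆ : Subgroup K) :=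
      hL1.trans ((hK L).trans (Nat.mul_le_mul_left _ (Subgroup.card_le_of_le hL2)))
    have h4 : Nat.card (⁅(⊤ : Subgroup K), ⊤⁆ : Subgroup K) ≤
        Nat.card (N ⊔ ⁅(⊤ : Subgroup K), ⊤⁆ : Subgroup K) :=
      Subgroup.card_le_of_le le_sup_right
    calc 2 * (Nat.card K * Nat.card N) = Nat.card K * (2 * Nat.card N) := by ring
      _ ≤ (s * Nat.card (N ⊔ ⁅(⊤ : Subgroup K), ⊤⁆ : Subgroup K)) *
          (s * Nat.card (⁅N, (⊤ : Subgroup K)⁆ : Subgroup K)) :=
        Nat.mul_le_mul (h1.trans (Nat.mul_le_mul_left _ h4)) h3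
      _ = _ := by ring

/-! ### The wreath product -/

/-- the wreath product of `X` with a group of order two -/
@[ext]
structure W2 (X : Type) where
  /-- first coordinate -/
  x : X
  /-- second coordinate -/
  y : X
  /-- the swap -/
  s : Bool

namespace W2

variable {X : Type} [Group X]

instance : Mul (W2 X) := ⟨fun g h => ⟨g.x * (bif g.s then h.y else h.x),
  g.y * (bif g.s then h.x else h.y), xor g.s h.s⟩⟩

instance : One (W2 X) := ⟨⟨1, 1, false⟩⟩

instance : Inv (W2 X) := ⟨fun g => ⟨(bif g.s then g.y else g.x)⁻¹,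
  (bif g.s then g.x else g.y)⁻¹, g.s⟩⟩

theorem mul_x (g h : W2 X) : (g * h).x = g.x * (bif g.s then h.y else h.x) := rfl
theorem mul_y (g h : W2 X) : (g * h).y = g.y * (bif g.s then h.x else h.y) := rfl
theorem mul_s (g h : W2 X) : (g * h).s = xor g.s h.s := rfl
theorem one_x : (1 : W2 X).x = 1 := rfl
theorem one_y : (1 : W2 X).y = 1 := rfl
theorem one_s : (1 : W2 X).s = false := rfl
theorem inv_x (g : W2 X) : (g⁻¹).x = (bif g.s then g.y else g.x)⁻¹ := rfl
theorem inv_y (g : W2 X) : (g⁻¹).y = (bif g.s then g.x else g.y)⁻¹ := rfl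
theorem inv_s (g : W2 X) : (g⁻¹).s = g.s := rfl

instance : Group (W2 X) := Group.ofLeftAxioms
  (by
    rintro ⟨a, b, s⟩ ⟨c, d, t⟩ ⟨e, f, u⟩
    ext
    · simp only [mul_x, mul_y, mul_s]
      cases s <;> cases t <;> simp [mul_assoc]
    · simp only [mul_x, mul_y, mul_s]
      cases s <;> cases t <;> simp [mul_assoc]
    · simp only [mul_s, Bool.xor_assoc])
  (by
    rintro ⟨a, b, s⟩
    ext
    · simp [mul_x, one_x, one_s]
    · simp [mul_y, one_y, one_s]
    · simp [mul_s, one_s])
  (by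
    rintro ⟨a, b, s⟩
    ext
    · simp only [mul_x, inv_x, inv_s, one_x]
      cases s <;> simp
    · simp only [mul_y, inv_y, inv_s, one_y]
      cases s <;> simp
    · simp [mul_s, inv_s, one_s])

/-- the underlying set -/
def equivProd : W2 X ≃ (X × X) × Bool where
  toFun g := ((g.x, g.y), g.s)
  invFun q := ⟨q.1.1, q.1.2, q.2⟩
  left_inv _ := rfl
  right_inv _ := rfl

instance [Finite X] : Finite (W2 X) := Finite.of_equiv _ equivProd.symm

omit [Group X] in
theorem card_W2 : Nat.card (W2 X) = 2 * Nat.card X ^ 2 := by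
  rw [Nat.card_congr (equivProd (X := X)), Nat.card_prod, Nat.card_prod]
  simp
  ring

/-- the embedding of the first factor -/
def inl : X →* W2 X where
  toFun a := ⟨a, 1, false⟩
  map_one' := rfl
  map_mul' a b := by
    ext
    · rfl
    · simp [mul_y]
    · rfl

/-- the embedding of the second factor -/
def inr : X →* W2 X where
  toFun a := ⟨1, a, false⟩
  map_one' := rfl
  map_mul' a b := by
    ext
    · simp [mul_x]
    · rfl
    · rfl

theorem inl_injective : Function.Injective (inl : X →* W2 X) := fun _ _ h => congrArg W2.x h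
theorem inr_injective : Function.Injective (inr : X →* W2 X) := fun _ _ h => congrArg W2.y h

/-- the base group -/
def base : Subgroup (W2 X) where
  carrier := {g | g.s = false}
  one_mem' := rfl
  mul_mem' {a b} ha hb := by
    show xor a.s b.s = false
    rw [show a.s = false from ha, show b.s = false from hb]
    rfl
  inv_mem' h := h

theorem mem_base {g : W2 X} : g ∈ (base : Subgroup (W2 X)) ↔ g.s = false := Iff.rfl

/-- the projection of a subgroup of the base group -/
def prx (S : Subgroup (W2 X)) (hS : S ≤ base) : S →* X where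
  toFun g := g.1.x
  map_one' := rfl
  map_mul' a b := by
    show (a.1 * b.1).x = _
    rw [mul_x, show a.1.s = false from hS a.2, cond_false]

/-- counting: the order is the order of the projection times the order of the kernel -/
theorem card_eq (S : Subgroup (W2 X)) (hS : S ≤ base) :
    Nat.card S = Nat.card (prx S hS).range * Nat.card (S.comap (inr : X →* W2 X)) := by
  rw [Subgroup.card_eq_card_quotient_mul_card_subgroup (prx S hS).ker,
    Nat.card_congr (QuotientGroup.quotientKerEquivRange (prx S hS)).toEquiv]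
  congr 1
  refine Nat.card_congr ⟨fun g => ⟨g.1.1.y, ?_⟩, fun a => ⟨⟨inr a.1, a.2⟩, rfl⟩, fun g => ?_,
    fun a => rfl⟩
  · show inr g.1.1.y ∈ S
    have h1 : inr g.1.1.y = g.1.1 := by
      ext
      · exact (show g.1.1.x = 1 from g.2).symm
      · rfl
      · exact (show g.1.1.s = false from hS g.1.2).symm
    rw [h1]
    exact g.1.2
  · apply Subtype.ext
    apply Subtype.ext
    ext
    · exact (show g.1.1.x = 1 from g.2).symm
    · rfl
    · exact (show g.1.1.s = false from hS g.1.2).symm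

theorem commutator_le_base (H : Subgroup (W2 X)) : ⁅H, H⁆ ≤ base := by
  rw [Subgroup.commutator_le]
  intro g _ h _
  show (g * h * g⁻¹ * h⁻¹).s = false
  rw [mul_s, mul_s, mul_s, inv_s, inv_s]
  cases g.s <;> cases h.s <;> rfl

theorem comm_x {g h : W2 X} (hg : g.s = false) (hh : h.s = false) : (⁅g, h⁆ : W2 X).x =
    ⁅g.x, h.x⁆ := by
  show (g * h * g⁻¹ * h⁻¹).x = _
  simp only [mul_x, mul_s, inv_x, inv_s, hg, hh, Bool.xor_self, cond_false]
  rfl

theorem comm_y {g h : W2 X} (hg : g.s = false) (hh : h.s = false) : (⁅g, h⁆ : W2 X).y =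
    ⁅g.y, h.y⁆ := by
  show (g * h * g⁻¹ * h⁻¹).y = _
  simp only [mul_y, mul_s, inv_y, inv_s, hg, hh, Bool.xor_self, cond_false]
  rfl

/-- subgroups of the base group -/
theorem bound_base [Finite X] {s : ℕ} (hX : AbBound X s) (H : Subgroup (W2 X)) (hH : H ≤ base) :
    Nat.card H ≤ s ^ 2 * Nat.card (⁅H, H⁆ : Subgroup (W2 X)) := by
  rw [card_eq H hH, card_eq ⁅H, H⁆ (commutator_le_base H)]
  have h1 : ⁅(prx H hH).range, (prx H hH).range⁆ ≤
      (prx ⁅H, H⁆ (commutator_le_base H)).range := by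
    rw [Subgroup.commutator_le]
    rintro _ ⟨g, rfl⟩ _ ⟨h, rfl⟩
    refine ⟨⟨⁅g.1, h.1⁆, Subgroup.commutator_mem_commutator g.2 h.2⟩, ?_⟩
    exact comm_x (hH g.2) (hH h.2)
  have h2 : ⁅H.comap inr, H.comap inr⁆ ≤ (⁅H, H⁆ : Subgroup (W2 X)).comap inr := by
    rw [Subgroup.commutator_le]
    intro a ha b hb
    show inr ⁅a, b⁆ ∈ (⁅H, H⁆ : Subgroup (W2 X))
    rw [map_commutatorElement]
    exact Subgroup.commutator_mem_commutator ha hb
  calc Nat.card (prx H hH).range * Nat.card (H.comap inr)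
      ≤ (s * Nat.card (⁅(prx H hH).range, (prx H hH).range⁆ : Subgroup X)) *
        (s * Nat.card (⁅H.comap inr, H.comap inr⁆ : Subgroup X)) :=
        Nat.mul_le_mul (hX _) (hX _)
    _ ≤ (s * Nat.card (prx ⁅H, H⁆ (commutator_le_base H)).range) *
        (s * Nat.card ((⁅H, H⁆ : Subgroup (W2 X)).comap inr)) :=
        Nat.mul_le_mul (Nat.mul_le_mul_left _ (Subgroup.card_le_of_le h1))
          (Nat.mul_le_mul_left _ (Subgroup.card_le_of_le h2))
    _ = _ := by ring

/-- conjugation by an element outside of the base group -/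
theorem conj_inl {t : W2 X} (ht : t.s = true) (a : X) :
    t⁻¹ * inl a * t = inr (t.x⁻¹ * a * t.x) := by
  ext
  · show (t⁻¹ * inl a * t).x = 1
    simp only [mul_x, mul_s, inv_x, inv_s, ht, cond_true]
    show (t.y)⁻¹ * (inl a).y * (bif xor true (inl a).s then t.y else t.x) = 1
    have h1 : (inl a).y = 1 := rfl
    have h2 : (inl a).s = false := rfl
    rw [h1, h2]
    simp
  · show (t⁻¹ * inl a * t).y = t.x⁻¹ * a * t.x
    simp only [mul_y, mul_s, inv_y, inv_s, ht, cond_true]
    have h1 : (inl a).x = a := rfl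
    have h2 : (inl a).s = false := rfl
    rw [h1, h2]
    simp
  · show (t⁻¹ * inl a * t).s = false
    simp only [mul_s, inv_s, ht]
    rfl

theorem conj_inr {t : W2 X} (ht : t.s = true) (a : X) :
    t * inr a * t⁻¹ = inl (t.x * a * t.x⁻¹) := by
  ext
  · show (t * inr a * t⁻¹).x = t.x * a * t.x⁻¹
    simp only [mul_x, mul_s, inv_x, inv_y, ht, cond_true]
    have h1 : (inr a).y = a := rfl
    have h2 : (inr a).s = false := rfl
    rw [h1, h2]
    simp
  · show (t * inr a * t⁻¹).y = 1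
    simp only [mul_y, mul_s, inv_x, inv_y, ht, cond_true]
    have h1 : (inr a).x = 1 := rfl
    have h2 : (inr a).s = false := rfl
    rw [h1, h2]
    simp
  · show (t * inr a * t⁻¹).s = false
    simp only [mul_s, inv_s, ht]
    rfl

theorem bound_out [Finite X] {s : ℕ} (hs : 2 ≤ s) (hX : AbBound X s) (H : Subgroup (W2 X))
    (t : W2 X) (htH : t ∈ H) (ht : t.s = true) :
    Nat.card H ≤ s ^ 2 * Nat.card (⁅H, H⁆ : Subgroup (W2 X)) := by
  classical
  have hBb : H ⊓ base ≤ base := inf_le_right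
  set K : Subgroup X := (prx (H ⊓ base) hBb).range with hK
  set N : Subgroup K := (H.comap (inl : X →* W2 X)).subgroupOf K with hN
  set D : Subgroup (W2 X) := ⁅H, H⁆ with hD
  have hDb : D ≤ base := commutator_le_base H
  have hDH : D ≤ H := by
    rw [hD, Subgroup.commutator_le]
    intro g hg h hh
    exact H.mul_mem (H.mul_mem (H.mul_mem hg hh) (H.inv_mem hg)) (H.inv_mem hh)
  -- the first count
  have c1 : Nat.card H ≤ 2 * Nat.card (H ⊓ base : Subgroup (W2 X)) := by
    have h1 : Nat.card (Bool × (H ⊓ base : Subgroup (W2 X))) =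
        2 * Nat.card (H ⊓ base : Subgroup (W2 X)) := by
      rw [Nat.card_prod]
      simp
    rw [← h1]
    have h2 : ∀ g ∈ H, (bif g.s then t * g else g) ∈ H ⊓ base := by
      intro g hg
      cases h3 : g.s
      · exact ⟨hg, h3⟩
      · refine ⟨H.mul_mem htH hg, ?_⟩
        show xor t.s g.s = false
        rw [ht, h3]
        rfl
    refine Nat.card_le_card_of_injective (fun g : H => (g.1.s, ⟨_, h2 g.1 g.2⟩)) ?_
    rintro ⟨g, hg⟩ ⟨h, hh⟩ he
    have h3 : g.s = h.s := congrArg Prod.fst he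
    have h4 : (bif g.s then t * g else g) = (bif h.s then t * h else h) :=
      congrArg (fun q => (q.2 : (H ⊓ base : Subgroup (W2 X))).1) he
    rw [h3] at h4
    apply Subtype.ext
    show g = h
    cases h5 : h.s
    · rw [h5, cond_false, cond_false] at h4
      exact h4
    · rw [h5, cond_true, cond_true] at h4
      exact mul_left_cancel h4
  have c2 := card_eq (H ⊓ base) hBb
  -- elements of `N`
  have memN : ∀ a : K, a ∈ N ↔ inl (a : X) ∈ H := by
    intro a
    rw [hN, Subgroup.mem_subgroupOf, Subgroup.mem_comap]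
  have inK : ∀ a : X, inl a ∈ H → a ∈ K := fun a ha => ⟨⟨inl a, ha, rfl⟩, rfl⟩
  have hnorm : N.Normal := by
    constructor
    rintro ⟨n, hn⟩ hn' ⟨k, hk⟩
    rw [memN] at hn' ⊢
    obtain ⟨⟨b, hbH, hb⟩, rfl⟩ := hk
    have h1 : inl (b.x * n * b.x⁻¹) = b * inl n * b⁻¹ := by
      have hb' : b.s = false := hb
      have e1 : (inl n : W2 X).x = n := rfl
      have e2 : (inl n : W2 X).y = 1 := rfl
      have e3 : (inl n : W2 X).s = false := rfl
      ext
      · show b.x * n * b.x⁻¹ = _
        simp [mul_x, mul_s, inv_x, hb', e1, e3]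
      · show 1 = _
        simp [mul_y, mul_s, inv_y, hb', e2, e3]
      · show false = _
        simp [mul_s, inv_s, hb', e3]
    show inl (b.x * n * b.x⁻¹) ∈ H
    rw [h1]
    exact H.mul_mem (H.mul_mem hbH hn') (H.inv_mem hbH)
  -- the second count
  have c3 : Nat.card ((H ⊓ base : Subgroup (W2 X)).comap (inr : X →* W2 X)) ≤ Nat.card N := by
    have h1 : ∀ a : X, inr a ∈ H → inl (t.x * a * t.x⁻¹) ∈ H := by
      intro a ha
      rw [← conj_inr ht]
      exact H.mul_mem (H.mul_mem htH ha) (H.inv_mem htH)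
    refine Nat.card_le_card_of_injective (fun a => ⟨⟨t.x * a.1 * t.x⁻¹,
      inK _ (h1 a.1 a.2.1)⟩, (memN _).2 (h1 a.1 a.2.1)⟩) ?_
    rintro ⟨a, ha⟩ ⟨b, hb⟩ he
    have h2 : t.x * a * t.x⁻¹ = t.x * b * t.x⁻¹ :=
      congrArg (fun q : N => (q.1 : X)) he
    exact Subtype.ext (mul_left_cancel (mul_right_cancel h2))
  -- the derived subgroup
  have d1 := card_eq D hDb
  have d2 : Nat.card (N ⊔ ⁅(⊤ : Subgroup K), ⊤⁆ : Subgroup K) ≤ Nat.card (prx D hDb).range := by
    rw [← card_map_inj K.subtype K.subtype_injective]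
    apply Subgroup.card_le_of_le
    rw [Subgroup.map_le_iff_le_comap, sup_le_iff, Subgroup.commutator_le]
    constructor
    · intro a ha
      rw [memN] at ha
      -- `⁅t, m⁆` with `m = t⁻¹ * inl a * t`
      have h1 : t⁻¹ * inl (a : X) * t ∈ H := H.mul_mem (H.mul_mem (H.inv_mem htH) ha) htH
      refine ⟨⟨⁅t, t⁻¹ * inl (a : X) * t⁆, Subgroup.commutator_mem_commutator htH h1⟩, ?_⟩
      show (⁅t, t⁻¹ * inl (a : X) * t⁆ : W2 X).x = a
      have h2 : (⁅t, t⁻¹ * inl (a : X) * t⁆ : W2 X) = inl (a : X) * (inr (t.x⁻¹ * a * t.x))⁻¹ := by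
        rw [← conj_inl ht, commutatorElement_def]
        group
      rw [h2, mul_x]
      have e1 : (inl (a : X) : W2 X).x = a := rfl
      have e2 : (inl (a : X) : W2 X).s = false := rfl
      rw [e1, e2, cond_false, ← map_inv]
      show (a : X) * 1 = a
      rw [mul_one]
    · rintro ⟨a, ha⟩ - ⟨b, hb⟩ -
      obtain ⟨g, rfl⟩ := ha
      obtain ⟨h, rfl⟩ := hb
      refine ⟨⟨⁅g.1, h.1⁆, Subgroup.commutator_mem_commutator g.2.1 h.2.1⟩, ?_⟩
      exact comm_x g.2.2 h.2.2
  have d3 : Nat.card (⁅N, (⊤ : Subgroup K)⁆ : Subgroup K) ≤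
      Nat.card (D.comap (inr : X →* W2 X)) := by
    have h1 : ∀ a ∈ (⁅N, (⊤ : Subgroup K)⁆ : Subgroup K), inl (a : X) ∈ D := by
      have h2 : (⁅N, (⊤ : Subgroup K)⁆ : Subgroup K) ≤ (D.comap (inl : X →* W2 X)).subgroupOf K := by
        rw [Subgroup.commutator_le]
        rintro ⟨n, hn⟩ hn' ⟨k, hk⟩ -
        rw [memN] at hn'
        obtain ⟨⟨b, hbH, hb⟩, rfl⟩ := hk
        rw [Subgroup.mem_subgroupOf, Subgroup.mem_comap]
        have h3 : inl (⁅n, b.x⁆ : X) = ⁅inl n, b⁆ := by
          have hb' : b.s = false := hb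
          ext
          · exact (comm_x (g := inl n) rfl hb').symm
          · rw [comm_y (g := inl n) rfl hb']
            show 1 = ⁅(1 : X), b.y⁆
            rw [commutatorElement_one_left]
          · exact ((mem_base.1 (commutator_le_base ⊤ (Subgroup.commutator_mem_commutator
              (Subgroup.mem_top (inl n)) (Subgroup.mem_top b))))).symm
        show inl (⁅n, b.x⁆ : X) ∈ D
        rw [h3]
        exact Subgroup.commutator_mem_commutator hn' hbH
      exact fun a ha => h2 ha
    have h4 : ∀ a : X, inl a ∈ D → inr (t.x⁻¹ * a * t.x) ∈ D := by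
      intro a ha
      rw [← conj_inl ht]
      have h5 : t⁻¹ * inl a * t = ⁅t⁻¹, inl a⁆ * inl a := by
        rw [commutatorElement_def]
        group
      rw [h5]
      exact D.mul_mem (Subgroup.commutator_mem_commutator (H.inv_mem htH) (hDH ha)) ha
    refine Nat.card_le_card_of_injective (fun a => ⟨t.x⁻¹ * (a.1 : X) * t.x,
      h4 _ (h1 a.1 a.2)⟩) ?_
    rintro ⟨a, ha⟩ ⟨b, hb⟩ he
    have h2 : t.x⁻¹ * (a : X) * t.x = t.x⁻¹ * (b : X) * t.x :=
      congrArg (fun q : D.comap (inr : X →* W2 X) => (q.1 : X)) he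
    exact Subtype.ext (Subtype.ext (mul_left_cancel (mul_right_cancel h2)))
  have hfin := key_ineq hs (hX.subgroup K) N
  calc Nat.card H ≤ 2 * (Nat.card K * Nat.card ((H ⊓ base : Subgroup (W2 X)).comap inr)) := by
        rw [← c2]; exact c1
    _ ≤ 2 * (Nat.card K * Nat.card N) := by gcongr
    _ ≤ _ := hfin
    _ ≤ s ^ 2 * (Nat.card (prx D hDb).range * Nat.card (D.comap (inr : X →* W2 X))) := by
        gcongr
    _ = s ^ 2 * Nat.card D := by rw [← d1]

/-- the wreath product -/
theorem bound [Finite X] {s : ℕ} (hs : 2 ≤ s) (hX : AbBound X s) : AbBound (W2 X) (s ^ 2) := by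
  intro H
  by_cases hH : H ≤ base
  · exact bound_base hX H hH
  · obtain ⟨t, htH, ht⟩ := Set.not_subset.1 hH
    refine bound_out hs hX H t htH ?_
    have h1 : ¬ t.s = false := ht
    simpa using h1

end W2

end Pool.Agent.MP_d12f76_al.LB
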