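import Pool.Agent.MP_d12f76_al.LB.Check
import Pool.Agent.MP_d12f76_al.LB.Wreath

/-!
# MP_d12f76_al: a group of order 2^11 without abelian sections of order more than 2^5
-/

set_option autoImplicit false

namespace Pool.Agent.MP_d12f76_al.LB

theorem tab_lt (T x : ℕ) : tab T x < 2048 := Nat.mod_lt _ (by norm_num)

/-- a table as a map -/
def tb (T : ℕ) (x : Fin 2048) : Fin 2048 := ⟨tab T x, tab_lt T x⟩

theorem tb_inv {S T : ℕ} (h : ckInv S T = true) (x : Fin 2048) : tb S (tb T x) = x ∧ tb T (tb S x) = x := by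
  have h1 : (bif Nat.beq (tab S (tab T x)) x then Nat.beq (tab T (tab S x)) x else false) = true :=
    allb_spec h x x.2
  cases h2 : Nat.beq (tab S (tab T x)) x
  · rw [h2, cond_false] at h1
    exact absurd h1 Bool.false_ne_true
  · rw [h2, cond_true] at h1
    exact ⟨Fin.ext (Nat.eq_of_beq_eq_true h2), Fin.ext (Nat.eq_of_beq_eq_true h1)⟩

theorem tb_comm {S T : ℕ} (h : ckComm S T = true) (x : Fin 2048) : tb S (tb T x) = tb T (tb S x) :=
  Fin.ext (Nat.eq_of_beq_eq_true (allb_spec h x x.2))

/-- the left multiplication by the first generator -/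
def l0 : Equiv.Perm (Fin 2048) where
  toFun := tb tL0
  invFun := tb tM0
  left_inv x := (tb_inv inv0 x).2
  right_inv x := (tb_inv inv0 x).1

/-- the left multiplication by the second generator -/
def l1 : Equiv.Perm (Fin 2048) where
  toFun := tb tL1
  invFun := tb tM1
  left_inv x := (tb_inv inv1 x).2
  right_inv x := (tb_inv inv1 x).1

/-- the group -/
def P : Subgroup (Equiv.Perm (Fin 2048)) := Subgroup.closure {l0, l1}

theorem P_comm {g : Equiv.Perm (Fin 2048)} (hg : g ∈ P) : ∀ T ∈ Ts, ∀ x, g (tb T x) = tb T (g x) := by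
  intro T hT
  induction hg using Subgroup.closure_induction with
  | mem g hg =>
    intro x
    rcases hg with rfl | rfl
    · exact tb_comm (comm0 T hT) x
    · exact tb_comm (comm1 T hT) x
  | one => exact fun _ => rfl
  | mul g h _ _ ihg ihh =>
    intro x
    rw [Equiv.Perm.mul_apply, Equiv.Perm.mul_apply, ihh, ihg]
  | inv g _ ih =>
    intro x
    apply g.injective
    rw [ih, ← Equiv.Perm.mul_apply, ← Equiv.Perm.mul_apply, mul_inv_cancel]
    rfl

/-! ### Products -/

/-- the product as a loop over the tables -/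
def run (y : ℕ) : ℕ → List ℕ → ℕ → ℕ
  | _, [], x => x
  | s, T :: l, x => run y (s + 1) l (stp T (2 ^ s) y x)

theorem mul_eq (x y : ℕ) : mul x y = run y 0 Ts x := by
  unfold mul
  rw [frc_eq]
  rfl

theorem stp_eq (T s y x : ℕ) : stp T (2 ^ s) y x = if y.testBit s = true then tab T x else x := by
  unfold stp
  rw [beq_land]
  cases y.testBit s
  · rfl
  · rfl

theorem run_comm (g : Equiv.Perm (Fin 2048)) (y : ℕ) (l : List ℕ)
    (hg : ∀ T ∈ l, ∀ x, g (tb T x) = tb T (g x)) (s : ℕ) (x : Fin 2048) :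
    ∃ z : Fin 2048, (z : ℕ) = run y s l x ∧ ((g z : Fin 2048) : ℕ) = run y s l (g x) := by
  induction l generalizing s x with
  | nil => exact ⟨x, rfl, rfl⟩
  | cons T l ih =>
    have h1 : ∀ T ∈ l, ∀ x, g (tb T x) = tb T (g x) := fun T hT => hg T (List.mem_cons_of_mem _ hT)
    rw [run, run, stp_eq, stp_eq]
    by_cases h : y.testBit s = true
    · rw [if_pos h, if_pos h]
      obtain ⟨z, h2, h3⟩ := ih h1 (s + 1) (tb T x)
      refine ⟨z, h2, ?_⟩
      rw [h3, hg T List.mem_cons_self]
      rfl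
    · rw [if_neg h, if_neg h]
      exact ih h1 (s + 1) x

theorem apply_eq {g : Equiv.Perm (Fin 2048)} (hg : g ∈ P) (y : Fin 2048) :
    ((g y : Fin 2048) : ℕ) = mul (g 0 : Fin 2048) y := by
  obtain ⟨z, h1, h2⟩ := run_comm g y Ts (P_comm hg) 0 0
  rw [← mul_eq] at h1 h2
  have h3 : mul 0 y = y := Nat.eq_of_beq_eq_true (allb_spec mul_zero_left y y.2)
  have h4 : z = y := Fin.ext (h1.trans h3)
  rw [h4] at h2
  exact h2

/-! ### Bits -/

/-- the table `T` adds the bit `s` and does not change the bits below `s` -/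
theorem ckBit_spec {s T : ℕ} (h : ckBit s T = true) (x : ℕ) (hx : x < 2048) :
    (∀ k < s, (tab T x).testBit k = x.testBit k) ∧ (tab T x).testBit s = !(x.testBit s) := by
  have h1 : Nat.beq (Nat.mod (Nat.xor (tab T x) x) (Nat.pow 2 (Nat.succ s))) (Nat.pow 2 s) = true :=
    allb_spec h x hx
  have h2 : (tab T x ^^^ x) % 2 ^ (s + 1) = 2 ^ s := Nat.eq_of_beq_eq_true h1
  have h3 : ∀ k < s + 1, (tab T x ^^^ x).testBit k = decide (s = k) := by
    intro k hk
    have h4 := congrArg (fun n => Nat.testBit n k) h2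
    simp only [Nat.testBit_mod_two_pow, Nat.testBit_two_pow] at h4
    rw [decide_eq_true hk, Bool.true_and] at h4
    exact h4
  constructor
  · intro k hk
    have h4 := h3 k (by omega)
    rw [Nat.testBit_xor, decide_eq_false (by omega)] at h4
    revert h4
    cases (tab T x).testBit k <;> cases x.testBit k <;> simp
  · have h4 := h3 s (by omega)
    rw [Nat.testBit_xor, decide_eq_true rfl] at h4
    revert h4
    cases (tab T x).testBit s <;> cases x.testBit s <;> simp

theorem run_bit (y : ℕ) (l : List ℕ) (s : ℕ)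
    (hl : ∀ j (hj : j < l.length), ckBit (s + j) l[j] = true) (k : ℕ)
    (hy : ∀ j < k, y.testBit j = false) (x : ℕ) (hx : x < 2048) :
    (run y s l x).testBit k =
      xor (x.testBit k) (y.testBit k && decide (s ≤ k ∧ k < s + l.length)) := by
  induction l generalizing s x with
  | nil =>
    rw [run, List.length_nil, decide_eq_false (by omega), Bool.and_false, Bool.xor_false]
  | cons T l ih =>
    have h1 : ∀ j (hj : j < l.length), ckBit (s + 1 + j) l[j] = true := by
      intro j hj
      have h2 := hl (j + 1) (by rw [List.length_cons]; omega)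
      rw [List.getElem_cons_succ] at h2
      have h3 : s + (j + 1) = s + 1 + j := by omega
      rw [h3] at h2
      exact h2
    have h0 : ckBit s T = true := hl 0 (by rw [List.length_cons]; omega)
    rw [run, stp_eq]
    by_cases h : y.testBit s = true
    · rw [if_pos h, ih (s + 1) h1 (tab T x) (tab_lt T x), List.length_cons]
      obtain ⟨h2, h3⟩ := ckBit_spec h0 x hx
      have hks : k ≤ s := by
        by_contra hc
        rw [hy s (by omega)] at h
        exact Bool.false_ne_true h
      rcases eq_or_lt_of_le hks with h4 | h4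
      · subst h4
        rw [h3, h, decide_eq_false (by omega), decide_eq_true (by omega)]
        cases x.testBit k <;> rfl
      · rw [h2 k h4, decide_eq_false (by omega), decide_eq_false (by omega)]
    · rw [if_neg h, ih (s + 1) h1 x hx, List.length_cons]
      by_cases h4 : k = s
      · subst h4
        have h5 : y.testBit k = false := by simpa using h
        rw [h5, Bool.false_and, Bool.false_and]
      · congr 2
        apply decide_eq_decide.2
        omega

theorem Ts_ok : ∀ j (hj : j < Ts.length), ckBit (0 + j) Ts[j] = true := by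
  intro j hj
  have h : j < 11 := hj
  interval_cases j
  · exact bit0
  · exact bit1
  · exact bit2
  · exact bit3
  · exact bit4
  · exact bit5
  · exact bit6
  · exact bit7
  · exact bit8
  · exact bit9
  · exact bit10

theorem dvd_of_bits {n i : ℕ} (h : ∀ k < i, n.testBit k = false) : 2 ^ i ∣ n := by
  induction i with
  | zero => rw [pow_zero]; exact one_dvd _
  | succ i ih =>
    exact (dvd_succ_iff n i).2 ⟨ih fun k hk => h k (by omega), h i (by omega)⟩

theorem lead_mul {x y : ℕ} (hx : x < 2048) (hy : y < 2048) (i : ℕ) (h1 : 2 ^ i ∣ x)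
    (h2 : 2 ^ i ∣ y) : 2 ^ i ∣ mul x y ∧
      (mul x y).testBit i = xor (x.testBit i) (y.testBit i) := by
  have hbit : ∀ k ≤ i, (mul x y).testBit k =
      xor (x.testBit k) (y.testBit k && decide (0 ≤ k ∧ k < 0 + Ts.length)) := by
    intro k hk
    rw [mul_eq]
    exact run_bit y Ts 0 Ts_ok k (fun j hj => testBit_of_dvd h2 (by omega)) x hx
  constructor
  · apply dvd_of_bits
    intro k hk
    rw [hbit k hk.le, testBit_of_dvd h1 hk, testBit_of_dvd h2 hk]
    rfl
  · rw [hbit i le_rfl]
    by_cases hi : i < 11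
    · have h3 : 0 ≤ i ∧ i < 0 + Ts.length := ⟨Nat.zero_le i, by
        show i < 0 + 11
        omega⟩
      rw [decide_eq_true h3, Bool.and_true]
    · have h3 : y.testBit i = false := Nat.testBit_lt_two_pow (lt_of_lt_of_le hy (by
        have h4 : 2 ^ 11 ≤ 2 ^ i := Nat.pow_le_pow_right (by norm_num) (by omega)
        have h5 : (2048 : ℕ) = 2 ^ 11 := by norm_num
        omega))
      rw [h3, Bool.false_and]

/-- the code of the group -/
def code : Code P 11 mul iv where
  val g := ((g.1 0 : Fin 2048) : ℕ)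
  lt g := by
    have h := (g.1 0).2
    have h5 : (2048 : ℕ) = 2 ^ 11 := by norm_num
    rw [← h5]
    exact h
  inj g h hgh := by
    apply Subtype.ext
    apply Equiv.ext
    intro y
    apply Fin.ext
    have h1 : ((g.1 0 : Fin 2048) : ℕ) = ((h.1 0 : Fin 2048) : ℕ) := hgh
    rw [apply_eq g.2 y, apply_eq h.2 y, h1]
  one := rfl
  mul g h := by
    show ((g.1 (h.1 0) : Fin 2048) : ℕ) = _
    exact apply_eq g.2 (h.1 0)
  inv g := by
    show (((g.1)⁻¹ 0 : Fin 2048) : ℕ) = iv (g.1 0 : Fin 2048)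
    set z : Fin 2048 := ⟨iv (g.1 0 : Fin 2048), tab_lt _ _⟩ with hz
    have h1 : ((g.1 z : Fin 2048) : ℕ) = mul (g.1 0 : Fin 2048) z := apply_eq g.2 z
    have h2 : mul (g.1 0 : Fin 2048) (iv (g.1 0 : Fin 2048)) = 0 :=
      Nat.eq_of_beq_eq_true (allb_spec mul_iv _ (g.1 0).2)
    have h3 : g.1 z = 0 := Fin.ext (h1.trans h2)
    have h4 : (g.1)⁻¹ 0 = z := by
      rw [← h3, ← Equiv.Perm.mul_apply, inv_mul_cancel]
      rfl
    rw [h4]
  lead i g h h1 h2 := by
    show 2 ^ i ∣ ((g.1 (h.1 0) : Fin 2048) : ℕ) ∧ ((g.1 (h.1 0) : Fin 2048) : ℕ).testBit i = _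
    rw [apply_eq g.2 (h.1 0)]
    exact lead_mul (g.1 0).2 (h.1 0).2 i h1 h2

theorem lowOk : LowOk 11 := by
  intro t ht0 ht
  have h1 := allb_spec low_ck t (by
    have h5 : (2048 : ℕ) = 2 ^ 11 := by norm_num
    omega)
  have h2 : Nat.beq t 0 = false := by
    cases h3 : Nat.beq t 0
    · rfl
    · exact absurd (Nat.eq_of_beq_eq_true h3) (by omega)
  rw [h2, cond_false] at h1
  obtain ⟨l, -, h4⟩ := anyb_spec h1
  cases h5 : Nat.beq (low 11 t) (Nat.pow 2 l)
  · rw [h5, cond_false] at h4
    exact absurd h4 Bool.false_ne_true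
  · rw [h5, cond_true] at h4
    have h6 : low 11 t = 2 ^ l := Nat.eq_of_beq_eq_true h5
    have h7 : t % 2 ^ (l + 1) = 2 ^ l := Nat.eq_of_beq_eq_true h4
    have h8 : ∀ k < l + 1, t.testBit k = decide (l = k) := by
      intro k hk
      have h9 := congrArg (fun n => Nat.testBit n k) h7
      simp only [Nat.testBit_mod_two_pow, Nat.testBit_two_pow] at h9
      rw [decide_eq_true hk, Bool.true_and] at h9
      exact h9
    refine ⟨l, h6, dvd_of_bits fun k hk => ?_, ?_⟩
    · rw [h8 k (by omega), decide_eq_false (by omega)]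
    · rw [h8 l (by omega), decide_eq_true rfl]

theorem parOk : ∀ x < 2 ^ 11, par x = par0 11 x := by
  intro x hx
  have h1 := allb_spec par_ck x (by
    have h5 : (2048 : ℕ) = 2 ^ 11 := by norm_num
    omega)
  exact eq_of_beq h1

theorem in_l0 : code.In ⊤ 1 := ⟨⟨l0, Subgroup.subset_closure (Or.inl rfl)⟩, Subgroup.mem_top _, by
  show tab tL0 0 = 1
  decide +kernel⟩

theorem in_l1 : code.In ⊤ 2 := ⟨⟨l1, Subgroup.subset_closure (Or.inr rfl)⟩, Subgroup.mem_top _, by
  show tab tL1 0 = 2
  decide +kernel⟩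

theorem in_mul {x y z : ℕ} (hx : code.In ⊤ x) (hy : code.In ⊤ y) (h : mul x y = z) :
    code.In ⊤ z := by
  rw [← h]
  exact Code.In.mul code hx hy

theorem in_comm {x y z : ℕ} (hx : code.In ⊤ x) (hy : code.In ⊤ y)
    (h : mul (mul (iv x) (iv y)) (mul x y) = z) : code.In ⊤ z := by
  rw [← h]
  exact Code.In.mul code (Code.In.mul code (Code.In.inv code hx) (Code.In.inv code hy))
    (Code.In.mul code hx hy)

theorem in_4 : code.In ⊤ 4 := in_mul in_l0 in_l0 (by decide +kernel)
theorem in_8 : code.In ⊤ 8 := in_comm in_l1 in_l0 (by decide +kernel)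
theorem in_16 : code.In ⊤ 16 := in_comm in_8 in_l1 (by decide +kernel)
theorem in_32 : code.In ⊤ 32 := in_comm in_4 in_l1 (by decide +kernel)
theorem in_64 : code.In ⊤ 64 := in_comm in_8 in_4 (by decide +kernel)
theorem in_128 : code.In ⊤ 128 := in_comm in_16 in_l0 (by decide +kernel)
theorem in_256 : code.In ⊤ 256 := in_mul in_l1 in_l1 (by decide +kernel)
theorem in_512 : code.In ⊤ 512 := in_comm in_64 in_l0 (by decide +kernel)
theorem in_1024 : code.In ⊤ 1024 := in_mul in_4 in_4 (by decide +kernel)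

theorem E0_in : ∀ e ∈ E0, code.In ⊤ e.2.1 := by
  simp only [E0, List.forall_mem_cons, List.not_mem_nil, false_imp_iff, implies_true, and_true]
  exact ⟨in_l0, in_l1, in_4, in_8, in_16, in_32, in_64, in_128, in_256, in_512, in_1024⟩

theorem ok_of (l a : ℕ) (h : a = iv (2 ^ l)) : Code.Ok iv (2 ^ l, 2 ^ l, a) :=
  ⟨l, rfl, dvd_rfl, by
    show (2 ^ l).testBit l = true
    rw [Nat.testBit_two_pow, decide_eq_true rfl], h⟩

theorem E0_wf : Code.WF iv E0 := by
  constructor
  · decide
  · simp only [E0, List.forall_mem_cons, List.not_mem_nil, false_imp_iff, implies_true, and_true]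
    exact ⟨ok_of 0 _ (by decide +kernel), ok_of 1 _ (by decide +kernel),
      ok_of 2 _ (by decide +kernel), ok_of 3 _ (by decide +kernel), ok_of 4 _ (by decide +kernel),
      ok_of 5 _ (by decide +kernel), ok_of 6 _ (by decide +kernel), ok_of 7 _ (by decide +kernel),
      ok_of 8 _ (by decide +kernel), ok_of 9 _ (by decide +kernel), ok_of 10 _ (by decide +kernel)⟩

theorem card_P : Nat.card P = 2 ^ 11 := by
  apply le_antisymm
  · have h1 := Nat.card_le_card_of_injective (fun g : P => (⟨code.val g, code.lt g⟩ : Fin (2 ^ 11)))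
      (fun g h hgh => code.inj (congrArg Fin.val hgh))
    rwa [Nat.card_fin] at h1
  · have h1 := code.count E0 E0_wf ⊤ E0_in
    rw [Subgroup.card_top] at h1
    exact h1

/-- every abelian section of `P` has order at most `2 ^ 5` -/
theorem bound_P : AbBound P (2 ^ 5) := by
  intro H
  exact code.chk_sound lowOk par parOk 5 5 E0 ⊤ E0_wf E0_in rfl (by decide)
    (by rw [Subgroup.card_top, card_P]) chk_ok H le_top

/-- the groups `P`, `P ≀ C₂`, `(P ≀ C₂) ≀ C₂`, … -/
theorem tower (n : ℕ) : ∃ (G : Type) (_ : Group G) (_ : Finite G),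
    Nat.card G = 2 ^ (12 * 2 ^ n - 1) ∧ AbBound G (2 ^ (5 * 2 ^ n)) := by
  induction n with
  | zero => exact ⟨P, inferInstance, inferInstance, card_P, bound_P⟩
  | succ n ih =>
    obtain ⟨G, hG, hF, h1, h2⟩ := ih
    refine ⟨W2 G, inferInstance, inferInstance, ?_, ?_⟩
    · rw [W2.card_W2, h1, ← pow_mul, ← pow_succ']
      congr 1
      have h3 : 1 ≤ 2 ^ n := Nat.one_le_two_pow
      rw [pow_succ]
      omega
    · have h3 : 1 ≤ 2 ^ n := Nat.one_le_two_pow
      have h4 : 2 ≤ 2 ^ (5 * 2 ^ n) := by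
        calc 2 = 2 ^ 1 := (pow_one 2).symm
          _ ≤ 2 ^ (5 * 2 ^ n) := Nat.pow_le_pow_right (by norm_num) (by omega)
      have h5 := W2.bound h4 h2
      rw [← pow_mul] at h5
      have h6 : 5 * 2 ^ n * 2 = 5 * 2 ^ (n + 1) := by rw [pow_succ]; ring
      rw [h6] at h5
      exact h5

end Pool.Agent.MP_d12f76_al.LB
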