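import Mathlib

/-!
# MP_d12f76_al: a kernel-checkable bound for the abelian sections of a finite 2-group

The elements of the group are coded by numbers; a subgroup is given by a list of elements with
different leading bits. The function `chk` walks down the tree of all subgroups.
-/

set_option autoImplicit false

namespace Pool.Agent.MP_d12f76_al.LB

/-- forces the evaluation of a number -/
noncomputable def frc {α : Type} (x : ℕ) (f : ℕ → α) : α :=
  Nat.rec (motive := fun _ => α) (f 0) (fun k _ => f (Nat.succ k)) x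

theorem frc_eq {α : Type} (x : ℕ) (f : ℕ → α) : frc x f = f x := by
  cases x <;> rfl

/-- a coded element: the leading bit, the element, its inverse -/
abbrev Ent : Type := ℕ × ℕ × ℕ

section defs

variable (m : ℕ → ℕ → ℕ) (iv : ℕ → ℕ)

/-- sift an element through a list of coded elements -/
noncomputable def sift (E : List Ent) : ℕ → ℕ → ℕ → ℕ × ℕ :=
  List.rec (motive := fun _ => ℕ → ℕ → ℕ → ℕ × ℕ) (fun t _ eps => (t, eps))
    (fun e _ ih t w eps => bif Nat.beq (Nat.land t e.1) 0 then ih t (Nat.mul 2 w) eps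
      else frc (m e.2.2 t) fun t => ih t (Nat.mul 2 w) (Nat.add eps w)) E

/-- the lowest bit -/
def low (n t : ℕ) : ℕ := Nat.land t (Nat.sub (Nat.pow 2 n) t)

/-- insert an element into a list of coded elements -/
noncomputable def ins (n : ℕ) (D : List Ent) : ℕ → List Ent :=
  List.rec (motive := fun _ => ℕ → List Ent)
    (fun t => bif Nat.beq t 0 then [] else [(low n t, t, iv t)])
    (fun e D ih t => bif Nat.beq t 0 then e :: D else
      bif Nat.blt (low n t) e.1 then (low n t, t, iv t) :: e :: D else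
      bif Nat.beq (Nat.land t e.1) 0 then e :: ih t else
      e :: (frc (m e.2.2 t) fun t => ih t)) D

/-- the commutator -/
noncomputable def comm (x x' y y' : ℕ) : ℕ := frc (m x' y') fun a => frc (m x y) fun b => m a b

/-- fold over pairs -/
noncomputable def pairs {α : Type} (f : Ent → Ent → α → α) (E : List Ent) :
    α → α :=
  List.rec (motive := fun _ => α → α) (fun a => a)
    (fun e E ih a => ih (List.rec (motive := fun _ => α → α) (fun a => a)
      (fun e' _ ih' a => ih' (f e e' a)) E a)) E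

/-- length -/
noncomputable def len (D : List Ent) : ℕ :=
  List.rec (motive := fun _ => ℕ) 0 (fun _ _ ih => Nat.succ ih) D

/-- derived subgroup check -/
noncomputable def dchk (n r : ℕ) (E : List Ent) : Bool :=
  Nat.ble r (len (pairs (fun e e' D => bif Nat.ble r (len D) then D else
    frc (comm m e.2.1 e.2.2 e'.2.1 e'.2.2) fun c => ins m iv n D c) E []))

/-- two elements do not commute -/
noncomputable def nonab (E : List Ent) : Bool :=
  pairs (fun e e' (b : Bool) => bif b then true else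
    !(Nat.beq (m e.2.1 e'.2.1) (m e'.2.1 e.2.1))) E false

/-- all numbers below `k` -/
noncomputable def allb (f : ℕ → Bool) (k : ℕ) : Bool :=
  Nat.rec (motive := fun _ => Bool) true (fun k ih => bif f k then ih else false) k

/-- the exponents of an element are added to the list -/
noncomputable def push (E : List Ent) (c : ℕ) (S : List ℕ) : List ℕ :=
  Prod.rec (motive := fun _ => List ℕ) (fun t eps => bif Nat.beq t 0 then
    (bif Nat.beq eps 0 then S else frc eps fun eps => eps :: S) else S) (sift m E c 1 0)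

/-- squares -/
noncomputable def cons1 (E' E : List Ent) (S : List ℕ) : List ℕ :=
  List.rec (motive := fun _ => List ℕ → List ℕ) (fun S => S)
    (fun e _ ih S => ih (push m E' (m e.2.1 e.2.1) S)) E S

/-- commutators -/
noncomputable def cons2 (E : List Ent) (S : List ℕ) : List ℕ :=
  pairs (fun e e' S => push m E (comm m e.2.1 e.2.2 e'.2.1 e'.2.2) S) E S

/-- full evaluation of a list of numbers -/
noncomputable def frcL {α : Type} (S : List ℕ) (K : List ℕ → α) : α :=
  List.rec (motive := fun _ => (List ℕ → α) → α) (fun K => K [])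
    (fun s _ ih K => frc s fun s => ih fun L => K (s :: L)) S K

/-- `v` is not orthogonal to all members of `S` -/
noncomputable def skip (par : ℕ → Bool) (S : List ℕ) (v : ℕ) : Bool :=
  List.rec (motive := fun _ => Bool) false
    (fun s _ ih => bif par (Nat.land v s) then true else ih) S

/-- the last element with a bit of `v` -/
noncomputable def lastb (v : ℕ) (E : List Ent) : ℕ → Ent → Ent :=
  List.rec (motive := fun _ => ℕ → Ent → Ent) (fun _ e => e)
    (fun e _ ih w e' => ih (Nat.mul 2 w) (bif Nat.beq (Nat.land v w) 0 then e' else e)) E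

/-- the subgroup of index two given by `v` -/
noncomputable def childK {α : Type} (v : ℕ) (ep : Ent) (E : List Ent) :
    ℕ → (List Ent → α) → α :=
  List.rec (motive := fun _ => ℕ → (List Ent → α) → α) (fun _ K => K [])
    (fun e _ ih w K => bif Nat.beq (Nat.land v w) 0 then ih (Nat.mul 2 w) (fun L => K (e :: L))
      else bif Nat.blt v (Nat.mul 2 w) then ih (Nat.mul 2 w) K
      else frc (m e.2.1 ep.2.1) fun x => frc (m ep.2.2 e.2.2) fun y =>
        ih (Nat.mul 2 w) (fun L => K ((e.1, x, y) :: L))) E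

/-- the test of the tree of subgroups -/
noncomputable def chk (par : ℕ → Bool) (n a f : ℕ) : List Ent → Bool :=
  Nat.rec (motive := fun _ => List Ent → Bool) (nonab m)
    (fun f ih E => bif dchk m iv n (Nat.add f 2) E then
      frcL (cons1 m E E (cons2 m E [])) fun S =>
        allb (fun v => bif Nat.beq v 0 then true else bif skip par S v then true else
          childK m v (lastb v E 1 (0, 0, 0)) E 1 ih) (Nat.pow 2 (Nat.add f (Nat.add a 2)))
      else false) f

end defs

/-! ### Parity -/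

/-- parity of the lowest `n` bits -/
def par0 : ℕ → ℕ → Bool
  | 0, _ => false
  | n + 1, x => xor (par0 n x) (x.testBit n)

theorem par0_congr {n x y : ℕ} (h : ∀ i < n, x.testBit i = y.testBit i) :
    par0 n x = par0 n y := by
  induction n with
  | zero => rfl
  | succ n ih =>
    simp only [par0]
    rw [ih fun i hi => h i (Nat.lt_succ_of_lt hi), h n (Nat.lt_succ_self n)]

theorem par0_flip {n x y j : ℕ} {b : Bool} (hj : j < n)
    (h : ∀ i < n, i ≠ j → x.testBit i = y.testBit i)
    (hb : x.testBit j = xor (y.testBit j) b) : par0 n x = xor (par0 n y) b := by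
  induction n with
  | zero => omega
  | succ n ih =>
    simp only [par0]
    by_cases hjn : j = n
    · subst hjn
      rw [par0_congr (x := x) (y := y) fun i hi => h i (by omega) (by omega), hb, Bool.xor_assoc]
    · rw [ih (by omega) fun i hi hij => h i (by omega) hij, h n (by omega) (by omega),
        Bool.xor_assoc, Bool.xor_assoc, Bool.xor_comm b]

theorem testBit_add_pow {eps j : ℕ} (he : eps < 2 ^ j) (i : ℕ) :
    (eps + 2 ^ j).testBit i = if i < j then eps.testBit i else decide (i = j) := by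
  have h := Nat.testBit_two_pow_mul_add 1 he i
  rw [mul_one, add_comm] at h
  rw [h]
  split_ifs with h1
  · rfl
  · have h2 := Nat.testBit_two_pow (n := 0) (m := i - j)
    rw [pow_zero] at h2
    rw [h2]
    congr 1
    apply propext
    omega

theorem par0_add {n v eps j : ℕ} (hj : j < n) (he : eps < 2 ^ j) :
    par0 n (v &&& (eps + 2 ^ j)) = xor (par0 n (v &&& eps)) (v.testBit j) := by
  have hz : ∀ i, j ≤ i → eps.testBit i = false := fun i hi =>
    Nat.testBit_lt_two_pow (lt_of_lt_of_le he (Nat.pow_le_pow_right (by norm_num) hi))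
  refine par0_flip hj (fun i hi hij => ?_) ?_
  · rw [Nat.testBit_and, Nat.testBit_and, testBit_add_pow he]
    split_ifs with h1
    · rfl
    · rw [hz i (by omega)]
      simp [hij]
  · rw [Nat.testBit_and, Nat.testBit_and, testBit_add_pow he, if_neg (lt_irrefl j), hz j le_rfl]
    simp

theorem par0_zero (n : ℕ) : par0 n 0 = false := by
  induction n with
  | zero => rfl
  | succ n ih => simp [par0, ih]

theorem exists_bits (k : ℕ) (f : ℕ → Bool) : ∃ v < 2 ^ k, ∀ i < k, v.testBit i = f i := by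
  induction k with
  | zero => exact ⟨0, by norm_num, fun i hi => absurd hi (Nat.not_lt_zero i)⟩
  | succ k ih =>
    obtain ⟨v, hv, h⟩ := ih
    cases hf : f k
    · refine ⟨v, by rw [pow_succ]; omega, fun i hi => ?_⟩
      rcases Nat.lt_succ_iff_lt_or_eq.1 hi with h1 | h1
      · exact h i h1
      · subst h1
        rw [hf]
        exact Nat.testBit_lt_two_pow hv
    · refine ⟨v + 2 ^ k, by rw [pow_succ]; omega, fun i hi => ?_⟩
      rw [testBit_add_pow hv]
      rcases Nat.lt_succ_iff_lt_or_eq.1 hi with h1 | h1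
      · rw [if_pos h1]; exact h i h1
      · subst h1
        rw [if_neg (lt_irrefl i), hf]
        simp

theorem allb_spec {f : ℕ → Bool} {k : ℕ} (h : allb f k = true) : ∀ x < k, f x = true := by
  induction k with
  | zero => exact fun x hx => absurd hx (Nat.not_lt_zero x)
  | succ k ih =>
    have h1 : (bif f k then allb f k else false) = true := h
    cases hf : f k
    · rw [hf, cond_false] at h1
      exact absurd h1 Bool.false_ne_true
    · rw [hf, cond_true] at h1
      intro x hx
      rcases Nat.lt_succ_iff_lt_or_eq.1 hx with h2 | h2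
      · exact ih h1 x h2
      · rw [h2, hf]

theorem frcL_eq {α : Type} (S : List ℕ) (K : List ℕ → α) : frcL S K = K S := by
  induction S generalizing K with
  | nil => rfl
  | cons s S ih =>
    have h1 : frcL (s :: S) K = frc s fun s => frcL S fun L => K (s :: L) := rfl
    rw [h1, frc_eq, ih]

theorem skip_spec {par : ℕ → Bool} {S : List ℕ} {v : ℕ} (h : skip par S v = true) :
    ∃ s ∈ S, par (v &&& s) = true := by
  induction S with
  | nil => exact absurd h Bool.false_ne_true
  | cons s S ih =>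
    have h1 : (bif par (Nat.land v s) then true else skip par S v) = true := h
    cases hp : par (Nat.land v s)
    · rw [hp, cond_false] at h1
      obtain ⟨t, ht, h2⟩ := ih h1
      exact ⟨t, List.mem_cons_of_mem _ ht, h2⟩
    · exact ⟨s, List.mem_cons_self, hp⟩

theorem len_eq (D : List Ent) : len D = D.length := by
  induction D with
  | nil => rfl
  | cons e D ih =>
    have h1 : len (e :: D) = Nat.succ (len D) := rfl
    rw [h1, ih, List.length_cons]

theorem comm_eq (m : ℕ → ℕ → ℕ) (x x' y y' : ℕ) : comm m x x' y y' = m (m x' y') (m x y) := by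
  unfold comm
  rw [frc_eq, frc_eq]

theorem pairs_ind {α : Type} {f : Ent → Ent → α → α} {P : α → Prop} {E : List Ent}
    (hf : ∀ e ∈ E, ∀ e' ∈ E, ∀ a, P a → P (f e e' a)) (a : α) (ha : P a) : P (pairs f E a) := by
  induction E generalizing a with
  | nil => exact ha
  | cons e E ih =>
    have h1 : pairs f (e :: E) a = pairs f E (List.rec (motive := fun _ => α → α) (fun a => a)
      (fun e' _ ih' a => ih' (f e e' a)) E a) := rfl
    rw [h1]
    refine ih (fun e1 h1 e2 h2 => hf e1 (List.mem_cons_of_mem _ h1) e2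
      (List.mem_cons_of_mem _ h2)) _ ?_
    have key : ∀ L : List Ent, (∀ e' ∈ L, e' ∈ E) → ∀ a, P a →
        P (List.rec (motive := fun _ => α → α) (fun a => a)
          (fun e' _ ih' a => ih' (f e e' a)) L a) := by
      intro L
      induction L with
      | nil => exact fun _ a ha => ha
      | cons e' L ih2 =>
        intro hL a ha
        exact ih2 (fun x hx => hL x (List.mem_cons_of_mem _ hx)) _
          (hf e List.mem_cons_self e' (List.mem_cons_of_mem _ (hL e' List.mem_cons_self)) a ha)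
    exact key E (fun _ h => h) a ha

/-! ### Coded groups -/

/-- A group whose elements are coded by numbers below `2 ^ n`; `m` and `iv` compute products and
inverses, and the leading bits are additive. -/
structure Code (Γ : Type) [Group Γ] (n : ℕ) (m : ℕ → ℕ → ℕ) (iv : ℕ → ℕ) where
  /-- the code -/
  val : Γ → ℕ
  lt : ∀ g, val g < 2 ^ n
  inj : Function.Injective val
  one : val 1 = 0
  mul : ∀ g h, val (g * h) = m (val g) (val h)
  inv : ∀ g, val g⁻¹ = iv (val g)
  lead : ∀ i g h, 2 ^ i ∣ val g → 2 ^ i ∣ val h → 2 ^ i ∣ val (g * h) ∧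
    (val (g * h)).testBit i = xor ((val g).testBit i) ((val h).testBit i)

theorem dvd_succ_iff (x i : ℕ) : 2 ^ (i + 1) ∣ x ↔ 2 ^ i ∣ x ∧ x.testBit i = false := by
  constructor
  · intro h
    refine ⟨(pow_dvd_pow 2 (Nat.le_succ i)).trans h, ?_⟩
    obtain ⟨q, rfl⟩ := h
    rw [pow_succ, mul_assoc, Nat.testBit_two_pow_mul, Nat.sub_self]
    simp
  · rintro ⟨⟨q, rfl⟩, h2⟩
    rw [Nat.testBit_two_pow_mul, Nat.sub_self] at h2
    have h3 : q.testBit 0 = false := by simpa using h2
    rw [Nat.testBit_zero] at h3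
    have h4 : q % 2 = 0 := by
      have : ¬ q % 2 = 1 := by simpa using h3
      omega
    rw [pow_succ]
    exact mul_dvd_mul_left _ (Nat.dvd_of_mod_eq_zero h4)

theorem testBit_of_dvd {x i j : ℕ} (h : 2 ^ i ∣ x) (hj : j < i) : x.testBit j = false :=
  ((dvd_succ_iff x j).1 ((pow_dvd_pow 2 hj).trans h)).2

namespace Code

variable {Γ : Type} [Group Γ] {n : ℕ} {m : ℕ → ℕ → ℕ} {iv : ℕ → ℕ} (c : Code Γ n m iv)

theorem val_eq_zero {g : Γ} (h : c.val g = 0) : g = 1 := c.inj (h.trans c.one.symm)

theorem dvd_inv (i : ℕ) (g : Γ) (h : 2 ^ i ∣ c.val g) : 2 ^ i ∣ c.val g⁻¹ := by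
  induction i with
  | zero => rw [pow_zero]; exact one_dvd _
  | succ i ih =>
    obtain ⟨h1, h2⟩ := (dvd_succ_iff _ _).1 h
    have h3 := ih h1
    refine (dvd_succ_iff _ _).2 ⟨h3, ?_⟩
    have h4 := (c.lead i g g⁻¹ h1 h3).2
    rw [mul_inv_cancel, c.one, h2, Nat.zero_testBit, Bool.false_xor] at h4
    exact h4.symm

/-- the elements whose code is divisible by `2 ^ i` -/
def Fil (i : ℕ) : Subgroup Γ where
  carrier := {g | 2 ^ i ∣ c.val g}
  mul_mem' {g h} hg hh := (c.lead i g h hg hh).1
  one_mem' := by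
    show 2 ^ i ∣ c.val 1
    rw [c.one]
    exact dvd_zero _
  inv_mem' {g} hg := c.dvd_inv i g hg

theorem mem_Fil {i : ℕ} {g : Γ} : g ∈ c.Fil i ↔ 2 ^ i ∣ c.val g := Iff.rfl

/-- `x` is the code of an element of `M` -/
def In (M : Subgroup Γ) (x : ℕ) : Prop := ∃ g ∈ M, c.val g = x

theorem In.mono {M N : Subgroup Γ} (h : M ≤ N) {x : ℕ} (hx : c.In M x) : c.In N x := by
  obtain ⟨g, hg, rfl⟩ := hx
  exact ⟨g, h hg, rfl⟩

theorem In.mul {M : Subgroup Γ} {x y : ℕ} (hx : c.In M x) (hy : c.In M y) : c.In M (m x y) := by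
  obtain ⟨g, hg, rfl⟩ := hx
  obtain ⟨h, hh, rfl⟩ := hy
  exact ⟨g * h, M.mul_mem hg hh, c.mul g h⟩

theorem In.inv {M : Subgroup Γ} {x : ℕ} (hx : c.In M x) : c.In M (iv x) := by
  obtain ⟨g, hg, rfl⟩ := hx
  exact ⟨g⁻¹, M.inv_mem hg, c.inv g⟩

theorem In.lt {M : Subgroup Γ} {x : ℕ} (hx : c.In M x) : x < 2 ^ n := by
  obtain ⟨g, hg, rfl⟩ := hx
  exact c.lt g

theorem mem_of_In {M : Subgroup Γ} {g : Γ} (h : c.In M (c.val g)) : g ∈ M := by
  obtain ⟨g', hg', h'⟩ := h
  rwa [← c.inj h']

/-- a correct entry -/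
def Ok (iv : ℕ → ℕ) (e : Ent) : Prop :=
  ∃ l, e.1 = 2 ^ l ∧ 2 ^ l ∣ e.2.1 ∧ e.2.1.testBit l = true ∧ e.2.2 = iv e.2.1

/-- a correct list: increasing leading bits -/
def WF (iv : ℕ → ℕ) (E : List Ent) : Prop :=
  E.Pairwise (fun e e' => e.1 < e'.1) ∧ ∀ e ∈ E, Ok iv e

theorem WF.tail {e : Ent} {E : List Ent} (h : WF iv (e :: E)) : WF iv E :=
  ⟨(List.pairwise_cons.1 h.1).2, fun e' he' => h.2 e' (List.mem_cons_of_mem _ he')⟩

theorem two_mul_card_le [Finite Γ] {K M : Subgroup Γ} (h : K < M) :
    2 * Nat.card K ≤ Nat.card M := by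
  obtain ⟨r, hr⟩ := Subgroup.card_dvd_of_le h.le
  have h1 : 0 < Nat.card M := Nat.card_pos
  have h2 : r ≠ 0 := by
    rintro rfl
    rw [mul_zero] at hr
    omega
  have h3 : r ≠ 1 := by
    rintro rfl
    rw [mul_one] at hr
    exact h.ne (Subgroup.eq_of_le_of_card_ge h.le hr.le)
  have h4 : 2 ≤ r := by omega
  calc 2 * Nat.card K ≤ r * Nat.card K := Nat.mul_le_mul_right _ h4
    _ = Nat.card M := by rw [hr, mul_comm]

/-- a subgroup containing elements with `k` different leading bits has at least `2 ^ k`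
elements -/
theorem count [Finite Γ] (E : List Ent) (hE : WF iv E) (M : Subgroup Γ)
    (hM : ∀ e ∈ E, c.In M e.2.1) : 2 ^ E.length ≤ Nat.card M := by
  induction E generalizing M with
  | nil =>
    rw [List.length_nil, pow_zero]
    exact Nat.card_pos
  | cons e E ih =>
    obtain ⟨l, h1, h2, h3, h4⟩ := hE.2 e List.mem_cons_self
    obtain ⟨g, hg, hgx⟩ := hM e List.mem_cons_self
    have h5 := ih hE.tail (M ⊓ c.Fil (l + 1)) (fun e' he' => by
      obtain ⟨g', hg', hgx'⟩ := hM e' (List.mem_cons_of_mem _ he')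
      obtain ⟨l', h1', h2', h3', h4'⟩ := hE.2 e' (List.mem_cons_of_mem _ he')
      refine ⟨g', ⟨hg', ?_⟩, hgx'⟩
      have h6 : e.1 < e'.1 := (List.pairwise_cons.1 hE.1).1 e' he'
      rw [h1, h1'] at h6
      have h7 : l < l' := (Nat.pow_lt_pow_iff_right (by norm_num)).1 h6
      show 2 ^ (l + 1) ∣ c.val g'
      rw [hgx']
      exact (pow_dvd_pow 2 h7).trans h2')
    have h6 : M ⊓ c.Fil (l + 1) < M := by
      refine lt_of_le_of_ne inf_le_left fun h => ?_
      rw [← h] at hg
      have h8 : 2 ^ (l + 1) ∣ c.val g := hg.2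
      have h9 := ((dvd_succ_iff _ _).1 h8).2
      rw [hgx, h3] at h9
      exact Bool.false_ne_true h9.symm
    have h7 := two_mul_card_le h6
    rw [List.length_cons, pow_succ]
    omega

/-! ### Parities -/

/-- `β` is a homomorphism on `M` -/
structure Par (M : Subgroup Γ) (β : ℕ → Bool) : Prop where
  mul : ∀ x y, c.In M x → c.In M y → β (m x y) = xor (β x) (β y)
  zero : β 0 = false

theorem Par.inv {M : Subgroup Γ} {β : ℕ → Bool} (h : c.Par M β) {x : ℕ} (hx : c.In M x) :
    β (iv x) = β x := by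
  obtain ⟨g, hg, rfl⟩ := hx
  have h1 := h.mul (iv (c.val g)) (c.val g) ⟨g⁻¹, M.inv_mem hg, c.inv g⟩ ⟨g, hg, rfl⟩
  rw [← c.inv, ← c.mul, inv_mul_cancel, c.one, h.zero, c.inv] at h1
  revert h1
  cases β (iv (c.val g)) <;> cases β (c.val g) <;> simp

theorem Par.sq {M : Subgroup Γ} {β : ℕ → Bool} (h : c.Par M β) {x : ℕ} (hx : c.In M x) :
    β (m x x) = false := by
  rw [h.mul x x hx hx, Bool.xor_self]

theorem Par.comm {M : Subgroup Γ} {β : ℕ → Bool} (h : c.Par M β) {x y : ℕ} (hx : c.In M x)
    (hy : c.In M y) : β (m (m (iv x) (iv y)) (m x y)) = false := by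
  have hx' := In.inv c hx
  have hy' := In.inv c hy
  rw [h.mul _ _ (In.mul c hx' hy') (In.mul c hx hy), h.mul _ _ hx' hy', h.mul _ _ hx hy,
    h.inv c hx, h.inv c hy, Bool.xor_self]

theorem sift_spec {M : Subgroup Γ} {β : ℕ → Bool} (h : c.Par M β) (v : ℕ) (E : List Ent)
    (hE : ∀ e ∈ E, c.In M e.2.1 ∧ e.2.2 = iv e.2.1) (j : ℕ) (hj : j + E.length ≤ n)
    (hv : ∀ i (hi : i < E.length), v.testBit (j + i) = β E[i].2.1) (t eps : ℕ) (ht : c.In M t)
    (he : eps < 2 ^ j) :
    c.In M (sift m E t (2 ^ j) eps).1 ∧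
      xor (β t) (par0 n (v &&& eps)) =
        xor (β (sift m E t (2 ^ j) eps).1) (par0 n (v &&& (sift m E t (2 ^ j) eps).2)) := by
  induction E generalizing j t eps with
  | nil => exact ⟨ht, rfl⟩
  | cons e E ih =>
    have h1 : sift m (e :: E) t (2 ^ j) eps = bif Nat.beq (Nat.land t e.1) 0 then
        sift m E t (Nat.mul 2 (2 ^ j)) eps
      else frc (m e.2.2 t) fun t => sift m E t (Nat.mul 2 (2 ^ j)) (Nat.add eps (2 ^ j)) := rfl
    have h2 : Nat.mul 2 (2 ^ j) = 2 ^ (j + 1) := by
      show 2 * 2 ^ j = 2 ^ (j + 1)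
      rw [pow_succ, mul_comm]
    rw [List.length_cons] at hj
    have hv' : ∀ i (hi : i < E.length), v.testBit (j + 1 + i) = β E[i].2.1 := by
      intro i hi
      have h3 := hv (i + 1) (by rw [List.length_cons]; omega)
      rw [List.getElem_cons_succ] at h3
      rw [← h3]
      congr 1
      omega
    have hE' : ∀ e ∈ E, c.In M e.2.1 ∧ e.2.2 = iv e.2.1 := fun x hx =>
      hE x (List.mem_cons_of_mem _ hx)
    rw [h1]
    cases Nat.beq (Nat.land t e.1) 0
    · rw [cond_false, frc_eq, h2]
      obtain ⟨he1, he2⟩ := hE e List.mem_cons_self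
      have h4 : c.In M (m e.2.2 t) := by
        rw [he2]
        exact In.mul c (In.inv c he1) ht
      have h5 : Nat.add eps (2 ^ j) < 2 ^ (j + 1) := by
        show eps + 2 ^ j < 2 ^ (j + 1)
        rw [pow_succ]
        omega
      obtain ⟨h6, h7⟩ := ih hE' (j + 1) (by omega) hv' (m e.2.2 t) (Nat.add eps (2 ^ j)) h4 h5
      refine ⟨h6, ?_⟩
      rw [← h7, he2, h.mul _ _ (In.inv c he1) ht, h.inv c he1]
      have h8 : par0 n (v &&& Nat.add eps (2 ^ j)) = xor (par0 n (v &&& eps)) (v.testBit j) :=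
        par0_add (by omega) he
      have h9 := hv 0 (by rw [List.length_cons]; omega)
      rw [add_zero, List.getElem_cons_zero] at h9
      rw [h8, h9]
      cases β t <;> cases β e.2.1 <;> cases par0 n (v &&& eps) <;> rfl
    · rw [cond_true, h2]
      exact ih hE' (j + 1) (by omega) hv' t eps ht (by rw [pow_succ]; omega)

/-- all members of `S` are orthogonal to `v` -/
def Orth (n v : ℕ) (S : List ℕ) : Prop := ∀ s ∈ S, par0 n (v &&& s) = false

theorem push_spec {M : Subgroup Γ} {β : ℕ → Bool} (h : c.Par M β) (v : ℕ) (E : List Ent)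
    (hE : ∀ e ∈ E, c.In M e.2.1 ∧ e.2.2 = iv e.2.1) (hn : E.length ≤ n)
    (hv : ∀ i (hi : i < E.length), v.testBit i = β E[i].2.1) (t : ℕ) (ht : c.In M t)
    (hβ : β t = false) (S : List ℕ) (hS : Orth n v S) : Orth n v (push m E t S) := by
  obtain ⟨h1, h2⟩ := c.sift_spec h v E hE 0 (by omega) (fun i hi => by rw [zero_add]; exact hv i hi)
    t 0 ht (by norm_num)
  have h3 : push m E t S = bif Nat.beq (sift m E t (2 ^ 0) 0).1 0 then
      (bif Nat.beq (sift m E t (2 ^ 0) 0).2 0 then S else
        frc (sift m E t (2 ^ 0) 0).2 fun eps => eps :: S) else S := rfl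
  rw [h3]
  rcases Nat.eq_zero_or_pos (sift m E t (2 ^ 0) 0).1 with h4 | h4
  · rw [h4, h.zero, hβ, Nat.and_zero, par0_zero, Bool.false_xor, Bool.false_xor] at h2
    rw [h4, show Nat.beq 0 0 = true from rfl, cond_true]
    cases Nat.beq (sift m E t (2 ^ 0) 0).2 0
    · rw [cond_false, frc_eq]
      intro s hs
      rcases List.mem_cons.1 hs with h5 | h5
      · rw [h5]; exact h2.symm
      · exact hS s h5
    · rw [cond_true]
      exact hS
  · have h5 : Nat.beq (sift m E t (2 ^ 0) 0).1 0 = false := by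
      cases h6 : Nat.beq (sift m E t (2 ^ 0) 0).1 0
      · rfl
      · exact absurd (Nat.eq_of_beq_eq_true h6) (by omega)
    rw [h5, cond_false]
    exact hS

theorem cons_spec {M : Subgroup Γ} {β : ℕ → Bool} (h : c.Par M β) (v : ℕ) (E : List Ent)
    (hE : ∀ e ∈ E, c.In M e.2.1 ∧ e.2.2 = iv e.2.1) (hn : E.length ≤ n)
    (hv : ∀ i (hi : i < E.length), v.testBit i = β E[i].2.1) :
    Orth n v (cons1 m E E (cons2 m E [])) := by
  have h2 : Orth n v (cons2 m E []) := by
    refine pairs_ind (P := Orth n v) (fun e he e' he' S hS => ?_) [] (fun s hs => by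
      cases hs)
    rw [comm_eq, (hE e he).2, (hE e' he').2]
    refine c.push_spec h v E hE hn hv _ (In.mul c (In.mul c (In.inv c (hE e he).1)
      (In.inv c (hE e' he').1)) (In.mul c (hE e he).1 (hE e' he').1)) ?_ S hS
    exact h.comm c (hE e he).1 (hE e' he').1
  have key : ∀ L : List Ent, (∀ e ∈ L, e ∈ E) → ∀ S, Orth n v S → Orth n v (cons1 m E L S) := by
    intro L
    induction L with
    | nil => exact fun _ S hS => hS
    | cons e L ih =>
      intro hL S hS
      have h3 : cons1 m E (e :: L) S = cons1 m E L (push m E (m e.2.1 e.2.1) S) := rfl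
      rw [h3]
      have he := hL e List.mem_cons_self
      exact ih (fun x hx => hL x (List.mem_cons_of_mem _ hx)) _
        (c.push_spec h v E hE hn hv _ (In.mul c (hE e he).1 (hE e he).1) (h.sq c (hE e he).1) S hS)
  exact key E (fun _ h => h) _ h2

end Code

/-! ### The derived subgroup -/

theorem beq_land (t l : ℕ) : Nat.beq (Nat.land t (2 ^ l)) 0 = !(t.testBit l) := by
  have h1 : Nat.land t (2 ^ l) = (t.testBit l).toNat * 2 ^ l := Nat.and_two_pow t l
  rw [h1]
  have h2 : 2 ^ l ≠ 0 := by positivity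
  cases t.testBit l
  · simp
  · rw [Bool.toNat_true, one_mul, Bool.not_true]
    cases h3 : Nat.beq (2 ^ l) 0
    · rfl
    · exact absurd (Nat.eq_of_beq_eq_true h3) h2

theorem blt_iff (a b : ℕ) : Nat.blt a b = true ↔ a < b := by
  show Nat.ble (Nat.succ a) b = true ↔ a < b
  rw [Nat.ble_eq]
  exact Nat.succ_le_iff

/-- specification of the lowest bit -/
def LowOk (n : ℕ) : Prop :=
  ∀ t, 0 < t → t < 2 ^ n → ∃ l, low n t = 2 ^ l ∧ 2 ^ l ∣ t ∧ t.testBit l = true

namespace Code

variable {Γ : Type} [Group Γ] {n : ℕ} {m : ℕ → ℕ → ℕ} {iv : ℕ → ℕ} (c : Code Γ n m iv)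

theorem ins_spec (hlow : LowOk n) (K : Subgroup Γ) (D : List Ent) (hD : WF iv D)
    (hDK : ∀ e ∈ D, c.In K e.2.1) (t : ℕ) (ht : c.In K t) (B : ℕ) (hB : 2 ^ B ∣ t)
    (hDB : ∀ e ∈ D, 2 ^ B ≤ e.1) :
    WF iv (ins m iv n D t) ∧ (∀ e ∈ ins m iv n D t, c.In K e.2.1) ∧
      ∀ e ∈ ins m iv n D t, 2 ^ B ≤ e.1 := by
  have hnew : ∀ t B, c.In K t → 2 ^ B ∣ t → t ≠ 0 →
      Ok iv (low n t, t, iv t) ∧ 2 ^ B ≤ low n t := by
    intro t B ht hB h0
    obtain ⟨l, h1, h2, h3⟩ := hlow t (Nat.pos_of_ne_zero h0) (In.lt c ht)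
    refine ⟨⟨l, h1, h2, h3, rfl⟩, ?_⟩
    rw [h1]
    refine Nat.pow_le_pow_right (by norm_num) ?_
    by_contra hc
    rw [testBit_of_dvd hB (by omega)] at h3
    exact Bool.false_ne_true h3
  induction D generalizing t B with
  | nil =>
    have h1 : ins m iv n [] t = bif Nat.beq t 0 then [] else [(low n t, t, iv t)] := rfl
    rw [h1]
    cases h2 : Nat.beq t 0
    · rw [cond_false]
      have h3 : t ≠ 0 := Nat.ne_of_beq_eq_false h2
      obtain ⟨h4, h5⟩ := hnew t B ht hB h3
      refine ⟨⟨List.pairwise_singleton _ _, fun e he => ?_⟩, fun e he => ?_, fun e he => ?_⟩ <;>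
      · rw [List.mem_singleton] at he
        subst he
        assumption
    · rw [cond_true]
      exact ⟨⟨List.Pairwise.nil, fun e he => by cases he⟩, fun e he => (by cases he),
        fun e he => (by cases he)⟩
  | cons e D ih =>
    have h1 : ins m iv n (e :: D) t = bif Nat.beq t 0 then e :: D else
      bif Nat.blt (low n t) e.1 then (low n t, t, iv t) :: e :: D else
      bif Nat.beq (Nat.land t e.1) 0 then e :: ins m iv n D t else
      e :: (frc (m e.2.2 t) fun t => ins m iv n D t) := rfl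
    rw [h1]
    cases h2 : Nat.beq t 0
    swap
    · rw [cond_true]
      exact ⟨hD, hDK, hDB⟩
    rw [cond_false]
    have h3 : t ≠ 0 := Nat.ne_of_beq_eq_false h2
    obtain ⟨⟨l, h4, h5, h6, h7⟩, h8⟩ := hnew t B ht hB h3
    obtain ⟨l', k1, k2, k3, k4⟩ := hD.2 e List.mem_cons_self
    have hlt := (List.pairwise_cons.1 hD.1).1
    cases h9 : Nat.blt (low n t) e.1
    swap
    · rw [cond_true]
      rw [blt_iff] at h9
      refine ⟨⟨List.pairwise_cons.2 ⟨fun e' he' => ?_, hD.1⟩, fun e' he' => ?_⟩, fun e' he' => ?_,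
        fun e' he' => ?_⟩
      · rcases List.mem_cons.1 he' with h10 | h10
        · rw [h10]; exact h9
        · exact lt_trans h9 (hlt e' h10)
      · rcases List.mem_cons.1 he' with h10 | h10
        · rw [h10]; exact ⟨l, h4, h5, h6, h7⟩
        · exact hD.2 e' h10
      · rcases List.mem_cons.1 he' with h10 | h10
        · rw [h10]; exact ht
        · exact hDK e' h10
      · rcases List.mem_cons.1 he' with h10 | h10
        · rw [h10]; exact h8
        · exact hDB e' h10
    rw [cond_false, k1, beq_land]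
    have h10 : l' ≤ l := by
      by_contra hc
      have h11 : low n t < e.1 := by
        have h4' : low n t = 2 ^ l := h4
        rw [h4', k1]
        exact Nat.pow_lt_pow_right (by norm_num) (by omega)
      rw [← blt_iff, h9] at h11
      exact Bool.false_ne_true h11
    have hdt : 2 ^ l' ∣ t := (pow_dvd_pow 2 h10).trans h5
    -- the general step
    have hstep : ∀ s, c.In K s → 2 ^ (l' + 1) ∣ s → WF iv (e :: ins m iv n D s) ∧
        (∀ e' ∈ e :: ins m iv n D s, c.In K e'.2.1) ∧
        ∀ e' ∈ e :: ins m iv n D s, 2 ^ B ≤ e'.1 := by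
      intro s hs hs2
      obtain ⟨i1, i2, i3⟩ := ih hD.tail (fun x hx => hDK x (List.mem_cons_of_mem _ hx)) s hs
        (l' + 1) hs2 (fun x hx => by
          have h12 := hlt x hx
          obtain ⟨l2, q1, -⟩ := hD.2 x (List.mem_cons_of_mem _ hx)
          rw [k1, q1] at h12
          rw [q1]
          exact Nat.pow_le_pow_right (by norm_num)
            ((Nat.pow_lt_pow_iff_right (by norm_num)).1 h12))
      have h13 : e.1 < 2 ^ (l' + 1) := by
        rw [k1]
        exact Nat.pow_lt_pow_right (by norm_num) (Nat.lt_succ_self _)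
      have h14 := hDB e List.mem_cons_self
      refine ⟨⟨List.pairwise_cons.2 ⟨fun x hx => lt_of_lt_of_le h13 (i3 x hx), i1.1⟩,
        fun x hx => ?_⟩, fun x hx => ?_, fun x hx => ?_⟩
      · rcases List.mem_cons.1 hx with h15 | h15
        · rw [h15]; exact ⟨l', k1, k2, k3, k4⟩
        · exact i1.2 x h15
      · rcases List.mem_cons.1 hx with h15 | h15
        · rw [h15]; exact hDK e List.mem_cons_self
        · exact i2 x h15
      · rcases List.mem_cons.1 hx with h15 | h15
        · rw [h15]; exact h14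
        · exact (h14.trans h13.le).trans (i3 x h15)
    cases h11 : t.testBit l'
    · rw [Bool.not_false, cond_true]
      exact hstep t ht ((dvd_succ_iff _ _).2 ⟨hdt, h11⟩)
    · rw [Bool.not_true, cond_false, frc_eq, k4]
      have hx := hDK e List.mem_cons_self
      refine hstep _ (In.mul c (In.inv c hx) ht) ?_
      obtain ⟨g, hg, hgx⟩ := hx
      obtain ⟨h, hh, hht⟩ := ht
      rw [← hgx, ← hht, ← c.inv, ← c.mul]
      rw [← hgx] at k2 k3
      rw [← hht] at hdt h11
      have k5 := c.dvd_inv l' g k2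
      have k6 := (c.lead l' g g⁻¹ k2 k5).2
      rw [mul_inv_cancel, c.one, Nat.zero_testBit, k3, Bool.true_xor] at k6
      obtain ⟨k7, k8⟩ := c.lead l' g⁻¹ h k5 hdt
      refine (dvd_succ_iff _ _).2 ⟨k7, ?_⟩
      rw [k8, h11]
      revert k6
      cases (c.val g⁻¹).testBit l' <;> simp

open scoped commutatorElement

theorem In_comm {M : Subgroup Γ} {x y : ℕ} (hx : c.In M x) (hy : c.In M y) :
    c.In (⁅M, M⁆ : Subgroup Γ) (m (m (iv x) (iv y)) (m x y)) := by
  obtain ⟨g, hg, rfl⟩ := hx
  obtain ⟨h, hh, rfl⟩ := hy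
  refine ⟨⁅g⁻¹, h⁻¹⁆, Subgroup.commutator_mem_commutator (M.inv_mem hg) (M.inv_mem hh), ?_⟩
  rw [commutatorElement_def, inv_inv, inv_inv, mul_assoc, c.mul, c.mul, c.mul, c.inv, c.inv]

theorem dchk_spec [Finite Γ] (hlow : LowOk n) {M : Subgroup Γ} {E : List Ent}
    (hE : ∀ e ∈ E, c.In M e.2.1 ∧ e.2.2 = iv e.2.1) {r : ℕ} (h : dchk m iv n r E = true) :
    2 ^ r ≤ Nat.card (⁅M, M⁆ : Subgroup Γ) := by
  have h1 : r ≤ len (pairs (fun e e' D => bif Nat.ble r (len D) then D else
    frc (comm m e.2.1 e.2.2 e'.2.1 e'.2.2) fun c => ins m iv n D c) E []) := by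
    rw [← Nat.ble_eq]; exact h
  rw [len_eq] at h1
  have h2 := pairs_ind (f := fun e e' D => bif Nat.ble r (len D) then D else
      frc (comm m e.2.1 e.2.2 e'.2.1 e'.2.2) fun c => ins m iv n D c) (E := E)
    (P := fun D => WF iv D ∧ ∀ e ∈ D, c.In (⁅M, M⁆ : Subgroup Γ) e.2.1) (by
      rintro e he e' he' D ⟨hD1, hD2⟩
      show WF iv (bif Nat.ble r (len D) then D else
        frc (comm m e.2.1 e.2.2 e'.2.1 e'.2.2) fun c => ins m iv n D c) ∧ _
      cases Nat.ble r (len D)
      · rw [cond_false, frc_eq, comm_eq, (hE e he).2, (hE e' he').2]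
        obtain ⟨i1, i2, -⟩ := c.ins_spec hlow ⁅M, M⁆ D hD1 hD2 _
          (c.In_comm (hE e he).1 (hE e' he').1) 0 (by rw [pow_zero]; exact one_dvd _)
          (fun x hx => by
            obtain ⟨l, q1, -⟩ := hD1.2 x hx
            rw [q1, pow_zero]
            exact Nat.one_le_two_pow)
        exact ⟨i1, i2⟩
      · rw [cond_true]
        exact ⟨hD1, hD2⟩) [] ⟨⟨List.Pairwise.nil, fun e he => by cases he⟩,
        fun e he => by cases he⟩
  exact (Nat.pow_le_pow_right (by norm_num) h1).trans (c.count _ h2.1 _ h2.2)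

theorem nonab_spec [Finite Γ] {M : Subgroup Γ} {E : List Ent}
    (hE : ∀ e ∈ E, c.In M e.2.1) (h : nonab m E = true) : 2 ≤ Nat.card (⁅M, M⁆ : Subgroup Γ) := by
  have h2 := pairs_ind (f := fun e e' (b : Bool) => bif b then true else
      !(Nat.beq (m e.2.1 e'.2.1) (m e'.2.1 e.2.1))) (E := E)
    (P := fun b => b = true → ∃ e ∈ E, ∃ e' ∈ E, m e.2.1 e'.2.1 ≠ m e'.2.1 e.2.1) (by
      intro e he e' he' b hb
      cases b
      · intro h3
        refine ⟨e, he, e', he', fun h4 => ?_⟩
        rw [cond_false, h4, Nat.beq_refl] at h3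
        exact Bool.false_ne_true h3
      · exact fun _ => hb rfl) false (fun h => absurd h Bool.false_ne_true) h
  obtain ⟨e, he, e', he', h3⟩ := h2
  obtain ⟨g, hg, hgx⟩ := hE e he
  obtain ⟨h', hh', hhx⟩ := hE e' he'
  have h4 : ⁅g, h'⁆ ≠ 1 := by
    intro h5
    rw [commutatorElement_eq_one_iff_mul_comm] at h5
    apply h3
    rw [← hgx, ← hhx, ← c.mul, ← c.mul, h5]
  have h5 : ⁅g, h'⁆ ∈ (⁅M, M⁆ : Subgroup Γ) := Subgroup.commutator_mem_commutator hg hh'
  have h6 : (⊥ : Subgroup Γ) < ⁅M, M⁆ := by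
    refine bot_lt_iff_ne_bot.2 fun h7 => h4 ?_
    rw [h7] at h5
    exact Subgroup.mem_bot.1 h5
  have h7 := two_mul_card_le h6
  rw [Subgroup.card_bot] at h7
  omega

end Code

/-! ### The subgroups of index two -/

theorem ge_of_bit {v p : ℕ} (h1 : v.testBit p = true) : 2 ^ p ≤ v := by
  by_contra h
  rw [Nat.testBit_lt_two_pow (not_le.1 h)] at h1
  exact Bool.false_ne_true h1

theorem lastb_past {v p : ℕ} (h2 : v < 2 ^ (p + 1)) (E : List Ent) (j : ℕ)
    (hj : p < j) (e0 : Ent) : lastb v E (2 ^ j) e0 = e0 := by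
  induction E generalizing j with
  | nil => rfl
  | cons e E ih =>
    have h3 : lastb v (e :: E) (2 ^ j) e0 = lastb v E (Nat.mul 2 (2 ^ j))
      (bif Nat.beq (Nat.land v (2 ^ j)) 0 then e0 else e) := rfl
    have h4 : Nat.mul 2 (2 ^ j) = 2 ^ (j + 1) := by
      show 2 * 2 ^ j = 2 ^ (j + 1)
      rw [pow_succ, mul_comm]
    have h5 : v.testBit j = false :=
      Nat.testBit_lt_two_pow (lt_of_lt_of_le h2 (Nat.pow_le_pow_right (by norm_num) hj))
    rw [h3, h4, beq_land, h5, Bool.not_false, cond_true]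
    exact ih (j + 1) (by omega)

theorem lastb_spec {v p : ℕ} (h1 : v.testBit p = true) (h2 : v < 2 ^ (p + 1)) (E : List Ent)
    (j : ℕ) (e0 : Ent) (i : ℕ) (hi : i < E.length) (hij : j + i = p) :
    lastb v E (2 ^ j) e0 = E[i] := by
  induction E generalizing j e0 i with
  | nil => exact absurd hi (Nat.not_lt_zero i)
  | cons e E ih =>
    have h3 : lastb v (e :: E) (2 ^ j) e0 = lastb v E (Nat.mul 2 (2 ^ j))
      (bif Nat.beq (Nat.land v (2 ^ j)) 0 then e0 else e) := rfl
    have h4 : Nat.mul 2 (2 ^ j) = 2 ^ (j + 1) := by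
      show 2 * 2 ^ j = 2 ^ (j + 1)
      rw [pow_succ, mul_comm]
    rw [h3, h4]
    cases i with
    | zero =>
      rw [add_zero] at hij
      subst hij
      rw [beq_land, h1, Bool.not_true, cond_false, List.getElem_cons_zero]
      exact lastb_past h2 E (j + 1) (Nat.lt_succ_self j) e
    | succ i =>
      rw [List.getElem_cons_succ]
      exact ih (j + 1) _ i (by rw [List.length_cons] at hi; omega) (by omega)

/-- the list of the subgroup of index two -/
noncomputable def child (m : ℕ → ℕ → ℕ) (v : ℕ) (ep : Ent) : ℕ → List Ent → List Ent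
  | _, [] => []
  | j, e :: E => if v.testBit j = true then
      (if v < 2 ^ (j + 1) then child m v ep (j + 1) E
        else (e.1, m e.2.1 ep.2.1, m ep.2.2 e.2.2) :: child m v ep (j + 1) E)
      else e :: child m v ep (j + 1) E

theorem childK_eq {α : Type} (m : ℕ → ℕ → ℕ) (v : ℕ) (ep : Ent) (E : List Ent) (j : ℕ)
    (K : List Ent → α) : childK m v ep E (2 ^ j) K = K (child m v ep j E) := by
  induction E generalizing j K with
  | nil => rfl
  | cons e E ih =>
    have h3 : childK m v ep (e :: E) (2 ^ j) K =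
      bif Nat.beq (Nat.land v (2 ^ j)) 0 then
        childK m v ep E (Nat.mul 2 (2 ^ j)) (fun L => K (e :: L))
      else bif Nat.blt v (Nat.mul 2 (2 ^ j)) then childK m v ep E (Nat.mul 2 (2 ^ j)) K
      else frc (m e.2.1 ep.2.1) fun x => frc (m ep.2.2 e.2.2) fun y =>
        childK m v ep E (Nat.mul 2 (2 ^ j)) (fun L => K ((e.1, x, y) :: L)) := rfl
    have h4 : Nat.mul 2 (2 ^ j) = 2 ^ (j + 1) := by
      show 2 * 2 ^ j = 2 ^ (j + 1)
      rw [pow_succ, mul_comm]
    rw [h3, h4, beq_land, child]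
    cases h5 : v.testBit j
    · rw [Bool.not_false, cond_true, if_neg Bool.false_ne_true, ih]
    · rw [Bool.not_true, cond_false, if_pos rfl]
      by_cases h6 : v < 2 ^ (j + 1)
      · rw [if_pos h6, (blt_iff _ _).2 h6, cond_true, ih]
      · have h7 : Nat.blt v (2 ^ (j + 1)) = false := by
          rw [← Bool.not_eq_true, blt_iff]
          exact h6
        rw [if_neg h6, h7, cond_false, frc_eq, frc_eq, ih]

theorem child_past {m : ℕ → ℕ → ℕ} {v p : ℕ} {ep : Ent} (h2 : v < 2 ^ (p + 1)) (E : List Ent)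
    (j : ℕ) (hj : p < j) : child m v ep j E = E := by
  induction E generalizing j with
  | nil => rfl
  | cons e E ih =>
    have h5 : v.testBit j = false :=
      Nat.testBit_lt_two_pow (lt_of_lt_of_le h2 (Nat.pow_le_pow_right (by norm_num) hj))
    rw [child, h5, if_neg Bool.false_ne_true, ih (j + 1) (by omega)]

theorem child_length {m : ℕ → ℕ → ℕ} {v p : ℕ} {ep : Ent} (h1 : v.testBit p = true)
    (h2 : v < 2 ^ (p + 1)) (E : List Ent) (j : ℕ) (i : ℕ) (hi : i < E.length) (hij : j + i = p) :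
    (child m v ep j E).length + 1 = E.length := by
  induction E generalizing j i with
  | nil => exact absurd hi (Nat.not_lt_zero i)
  | cons e E ih =>
    rw [child]
    cases i with
    | zero =>
      rw [add_zero] at hij
      subst hij
      rw [if_pos h1, if_pos h2, child_past h2 E (j + 1) (Nat.lt_succ_self j), List.length_cons]
    | succ i =>
      have h3 := ih (j + 1) i (by rw [List.length_cons] at hi; omega) (by omega)
      have h4 : ¬ v < 2 ^ (j + 1) := not_lt.2
        ((Nat.pow_le_pow_right (by norm_num) (by omega)).trans (ge_of_bit h1))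
      rw [if_neg h4]
      split_ifs
      · rw [List.length_cons, List.length_cons, h3]
      · rw [List.length_cons, List.length_cons, h3]

theorem child_fst {m : ℕ → ℕ → ℕ} {v : ℕ} {ep : Ent} (E : List Ent) (j : ℕ) :
    ((child m v ep j E).map Prod.fst).Sublist (E.map Prod.fst) := by
  induction E generalizing j with
  | nil => exact List.Sublist.refl _
  | cons e E ih =>
    rw [child, List.map_cons]
    split_ifs
    · exact (ih (j + 1)).cons _
    · rw [List.map_cons]
      exact (ih (j + 1)).cons_cons _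
    · rw [List.map_cons]
      exact (ih (j + 1)).cons_cons _

theorem child_mem {m : ℕ → ℕ → ℕ} {v p : ℕ} {ep : Ent} (h2 : v < 2 ^ (p + 1))
    (E : List Ent) (j : ℕ) (e' : Ent)
    (he' : e' ∈ child m v ep j E) : ∃ i, ∃ hi : i < E.length,
      (v.testBit (j + i) = false ∧ e' = E[i]) ∨
      (v.testBit (j + i) = true ∧ j + i < p ∧
        e' = (E[i].1, m E[i].2.1 ep.2.1, m ep.2.2 E[i].2.2)) := by
  induction E generalizing j with
  | nil => cases he'
  | cons e E ih =>
    have hstep : e' ∈ child m v ep (j + 1) E → ∃ i, ∃ hi : i < (e :: E).length,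
      (v.testBit (j + i) = false ∧ e' = (e :: E)[i]) ∨
      (v.testBit (j + i) = true ∧ j + i < p ∧
        e' = ((e :: E)[i].1, m (e :: E)[i].2.1 ep.2.1, m ep.2.2 (e :: E)[i].2.2)) := by
      intro h
      obtain ⟨i, hi, h3⟩ := ih (j + 1) h
      refine ⟨i + 1, by rw [List.length_cons]; omega, ?_⟩
      have h4 : j + (i + 1) = j + 1 + i := by omega
      rw [h4]
      simp only [List.getElem_cons_succ]
      exact h3
    rw [child] at he'
    by_cases h5 : v.testBit j = true
    · rw [if_pos h5] at he'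
      by_cases h6 : v < 2 ^ (j + 1)
      · rw [if_pos h6] at he'
        exact hstep he'
      · rw [if_neg h6] at he'
        rcases List.mem_cons.1 he' with h7 | h7
        · refine ⟨0, by rw [List.length_cons]; omega, Or.inr ⟨h5, ?_, h7⟩⟩
          have h8 : 2 ^ (j + 1) < 2 ^ (p + 1) := lt_of_le_of_lt (not_lt.1 h6) h2
          have h9 := (Nat.pow_lt_pow_iff_right (by norm_num)).1 h8
          omega
        · exact hstep h7
    · rw [if_neg h5] at he'
      rcases List.mem_cons.1 he' with h7 | h7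
      · exact ⟨0, by rw [List.length_cons]; omega, Or.inl ⟨by simpa using h5, h7⟩⟩
      · exact hstep h7

namespace Code

variable {Γ : Type} [Group Γ] {n : ℕ} {m : ℕ → ℕ → ℕ} {iv : ℕ → ℕ} (c : Code Γ n m iv)

theorem child_spec {M N : Subgroup Γ}
    (hN : ∀ g ∈ M, ∀ h ∈ M, (g * h ∈ N ↔ (g ∈ N ↔ h ∈ N))) {v p : ℕ}
    (h1 : v.testBit p = true) (h2 : v < 2 ^ (p + 1)) (E : List Ent) (hE : WF iv E)
    (hEM : ∀ e ∈ E, c.In M e.2.1) (hp : p < E.length)
    (hv : ∀ i (hi : i < E.length), v.testBit i = true ↔ ¬ c.In N E[i].2.1) :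
    WF iv (child m v (lastb v E 1 (0, 0, 0)) 0 E) ∧
      (∀ e ∈ child m v (lastb v E 1 (0, 0, 0)) 0 E, c.In N e.2.1) ∧
      (child m v (lastb v E 1 (0, 0, 0)) 0 E).length + 1 = E.length := by
  have h3 : lastb v E 1 (0, 0, 0) = E[p] := lastb_spec h1 h2 E 0 (0, 0, 0) p hp (zero_add p)
  rw [h3]
  have hpm : E[p] ∈ E := List.getElem_mem hp
  obtain ⟨gp, hgp, hgpx⟩ := hEM _ hpm
  have hgpN : gp ∉ N := fun h => (hv p hp).1 h1 ⟨gp, h, hgpx⟩
  obtain ⟨lp, a1, a2, a3, a4⟩ := hE.2 _ hpm
  -- the members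
  have hmem : ∀ e ∈ child m v E[p] 0 E, Ok iv e ∧ c.In N e.2.1 := by
    intro e he
    obtain ⟨i, hi, h4⟩ := child_mem h2 E 0 e he
    rw [zero_add] at h4
    have him : E[i] ∈ E := List.getElem_mem hi
    rcases h4 with ⟨h5, h6⟩ | ⟨h5, h6, h7⟩
    · rw [h6]
      refine ⟨hE.2 _ him, ?_⟩
      by_contra h7
      have h8 := (hv i hi).2 h7
      rw [h5] at h8
      exact Bool.false_ne_true h8
    · obtain ⟨g, hg, hgx⟩ := hEM _ him
      have hgN : g ∉ N := fun h => (hv i hi).1 h5 ⟨g, h, hgx⟩
      obtain ⟨l, b1, b2, b3, b4⟩ := hE.2 _ him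
      have hll : l < lp := by
        have h8 := List.pairwise_iff_getElem.1 hE.1 i p hi hp h6
        rw [a1, b1] at h8
        exact (Nat.pow_lt_pow_iff_right (by norm_num)).1 h8
      have h9 : m E[i].2.1 E[p].2.1 = c.val (g * gp) := by rw [c.mul, hgx, hgpx]
      rw [h7]
      refine ⟨⟨l, b1, ?_⟩, g * gp, (hN g hg gp hgp).2 ⟨fun h => absurd h hgN,
        fun h => absurd h hgpN⟩, h9.symm⟩
      show 2 ^ l ∣ m E[i].2.1 E[p].2.1 ∧ (m E[i].2.1 E[p].2.1).testBit l = true ∧
        m E[p].2.2 E[i].2.2 = iv (m E[i].2.1 E[p].2.1)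
      rw [h9]
      rw [← hgx] at b2 b3
      rw [← hgpx] at a2
      have h10 : 2 ^ l ∣ c.val gp := (pow_dvd_pow 2 hll.le).trans a2
      obtain ⟨h11, h12⟩ := c.lead l g gp b2 h10
      refine ⟨h11, ?_, ?_⟩
      · rw [h12, b3, testBit_of_dvd a2 hll]
        rfl
      · rw [a4, b4, ← hgx, ← hgpx, ← c.inv, ← c.inv, ← c.mul, ← c.inv, mul_inv_rev]
  refine ⟨⟨?_, fun e he => (hmem e he).1⟩, fun e he => (hmem e he).2,
    child_length h1 h2 E 0 p hp (zero_add p)⟩
  have h4 : (E.map Prod.fst).Pairwise (fun x y : ℕ => x < y) := by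
    rw [List.pairwise_map]
    exact hE.1
  have h5 := List.Pairwise.sublist (child_fst (m := m) (v := v) (ep := E[p]) E 0) h4
  rw [List.pairwise_map] at h5
  exact h5

/-- the subgroup of index two above a proper subgroup -/
theorem exists_index_two [Finite Γ] {M H : Subgroup Γ} {k : ℕ} (hM : Nat.card M = 2 ^ (k + 1))
    (hH : H < M) : ∃ N : Subgroup Γ, N ≤ M ∧ H ≤ N ∧ Nat.card N = 2 ^ k ∧
      ∀ g ∈ M, ∀ h ∈ M, (g * h ∈ N ↔ (g ∈ N ↔ h ∈ N)) := by
  have hfact : Fact (Nat.Prime 2) := ⟨Nat.prime_two⟩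
  have h1 : Nat.card H ∣ 2 ^ (k + 1) := by
    rw [← hM]
    exact Subgroup.card_dvd_of_le hH.le
  obtain ⟨j, hj, h2⟩ := (Nat.dvd_prime_pow Nat.prime_two).1 h1
  have h3 : j ≤ k := by
    have h4 := two_mul_card_le hH
    rw [h2, hM, ← pow_succ', Nat.pow_le_pow_iff_right (by norm_num)] at h4
    omega
  have h4 : Nat.card (H.subgroupOf M) = 2 ^ j := by
    rw [← h2]
    exact Nat.card_congr (Subgroup.subgroupOfEquivOfLe hH.le).toEquiv
  obtain ⟨K, hK1, hK2⟩ := Sylow.exists_subgroup_card_pow_prime_le 2 (n := j) (m := k)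
    (by rw [hM]; exact pow_dvd_pow 2 (Nat.le_succ k)) (H.subgroupOf M) h4 h3
  have h5 : K.index = 2 := by
    have h6 := K.card_mul_index
    rw [hK1, hM, pow_succ] at h6
    exact Nat.eq_of_mul_eq_mul_left (by positivity) h6
  have h7 : ∀ g (hg : g ∈ M), g ∈ K.map M.subtype ↔ (⟨g, hg⟩ : M) ∈ K := by
    intro g hg
    constructor
    · rintro ⟨x, hx, hxg⟩
      have h8 : (⟨g, hg⟩ : M) = x := Subtype.ext hxg.symm
      rw [h8]
      exact hx
    · exact fun h => ⟨⟨g, hg⟩, h, rfl⟩
  refine ⟨K.map M.subtype, Subgroup.map_subtype_le K, fun g hg => ?_, ?_, fun g hg h hh => ?_⟩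
  · exact ⟨⟨g, hH.le hg⟩, hK2 (Subgroup.mem_subgroupOf.2 hg), rfl⟩
  · rw [← hK1]
    exact (Nat.card_congr (K.equivMapOfInjective M.subtype M.subtype_injective).toEquiv).symm
  · rw [h7 g hg, h7 h hh, h7 (g * h) (M.mul_mem hg hh)]
    exact Subgroup.mul_mem_iff_of_index_two (a := ⟨g, hg⟩) (b := ⟨h, hh⟩) h5

theorem chk_sound [Finite Γ] (hlow : LowOk n) (par : ℕ → Bool)
    (hpar : ∀ x < 2 ^ n, par x = par0 n x) (a : ℕ) (f : ℕ) (E : List Ent) (M : Subgroup Γ)
    (hE : WF iv E) (hEM : ∀ e ∈ E, c.In M e.2.1) (hlen : E.length = f + a + 1) (hn : E.length ≤ n)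
    (hM : Nat.card M = 2 ^ (f + a + 1)) (h : chk m iv par n a f E = true) (H : Subgroup Γ)
    (hH : H ≤ M) : Nat.card H ≤ 2 ^ a * Nat.card (⁅H, H⁆ : Subgroup Γ) := by
  induction f generalizing E M with
  | zero =>
    have h1 : nonab m E = true := h
    rcases eq_or_lt_of_le hH with h2 | h2
    · subst h2
      have h3 := c.nonab_spec hEM h1
      rw [hM, zero_add, pow_succ]
      exact Nat.mul_le_mul_left _ h3
    · have h3 := two_mul_card_le h2
      rw [hM, zero_add, pow_succ] at h3
      have h4 : 0 < Nat.card (⁅H, H⁆ : Subgroup Γ) := Nat.card_pos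
      calc Nat.card H ≤ 2 ^ a := by omega
        _ ≤ 2 ^ a * Nat.card (⁅H, H⁆ : Subgroup Γ) := Nat.le_mul_of_pos_right _ h4
  | succ f ih =>
    have h1 : (bif dchk m iv n (Nat.add f 2) E then
      frcL (cons1 m E E (cons2 m E [])) fun S =>
        allb (fun v => bif Nat.beq v 0 then true else bif skip par S v then true else
          childK m v (lastb v E 1 (0, 0, 0)) E 1 (chk m iv par n a f))
          (Nat.pow 2 (Nat.add f (Nat.add a 2)))
      else false) = true := h
    have hE2 : ∀ e ∈ E, c.In M e.2.1 ∧ e.2.2 = iv e.2.1 := fun e he =>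
      ⟨hEM e he, by obtain ⟨l, -, -, -, h4⟩ := hE.2 e he; exact h4⟩
    cases h2 : dchk m iv n (Nat.add f 2) E
    · rw [h2, cond_false] at h1
      exact absurd h1 Bool.false_ne_true
    rw [h2, cond_true, frcL_eq] at h1
    have h3 := allb_spec h1
    rcases eq_or_lt_of_le hH with h4 | h4
    · subst h4
      have h5 : 2 ^ (f + 2) ≤ Nat.card (⁅H, H⁆ : Subgroup Γ) := c.dchk_spec hlow hE2 h2
      rw [hM]
      calc 2 ^ (f + 1 + a + 1) = 2 ^ a * 2 ^ (f + 2) := by ring
        _ ≤ _ := Nat.mul_le_mul_left _ h5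
    · obtain ⟨N, hNM, hHN, hNc, hN⟩ := exists_index_two (k := f + a + 1)
        (by rw [hM]; congr 1; omega) h4
      classical
      have hβ : c.Par M (fun x => decide (¬ c.In N x)) := by
        constructor
        · rintro x y ⟨g, hg, rfl⟩ ⟨h', hh', rfl⟩
          have hin : ∀ z : Γ, c.In N (c.val z) ↔ z ∈ N := fun z =>
            ⟨fun hz => c.mem_of_In hz, fun hz => ⟨z, hz, rfl⟩⟩
          rw [← c.mul]
          simp only [hin, hN g hg h' hh']
          by_cases k1 : g ∈ N <;> by_cases k2 : h' ∈ N <;> simp [k1, k2]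
        · have h6 : c.In N 0 := ⟨1, N.one_mem, c.one⟩
          simp [h6]
      obtain ⟨v, hv1, hv2⟩ := exists_bits E.length (fun i =>
        if hi : i < E.length then decide (¬ c.In N E[i].2.1) else false)
      have hv3 : ∀ i (hi : i < E.length), v.testBit i = decide (¬ c.In N E[i].2.1) := by
        intro i hi
        rw [hv2 i hi, dif_pos hi]
      have hv4 : ∀ i (hi : i < E.length), v.testBit i = true ↔ ¬ c.In N E[i].2.1 := by
        intro i hi
        rw [hv3 i hi, decide_eq_true_iff]
      have hv0 : v ≠ 0 := by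
        intro h0
        have h6 : ∀ e ∈ E, c.In N e.2.1 := by
          intro e he
          obtain ⟨i, hi, rfl⟩ := List.getElem_of_mem he
          by_contra h7
          have h8 := (hv4 i hi).2 h7
          rw [h0, Nat.zero_testBit] at h8
          exact Bool.false_ne_true h8
        have h7 := c.count E hE N h6
        rw [hlen, hNc, Nat.pow_le_pow_iff_right (by norm_num)] at h7
        omega
      have h5 := h3 v (by
        show v < 2 ^ (f + (a + 2))
        rw [hlen] at hv1
        have h6 : f + (a + 2) = f + 1 + a + 1 := by omega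
        rw [h6]
        exact hv1)
      have h6 : Nat.beq v 0 = false := by
        cases h7 : Nat.beq v 0
        · rfl
        · exact absurd (Nat.eq_of_beq_eq_true h7) hv0
      rw [h6, cond_false] at h5
      have h7 := c.cons_spec hβ v E hE2 hn hv3
      have h8 : skip par (cons1 m E E (cons2 m E [])) v = false := by
        cases h9 : skip par (cons1 m E E (cons2 m E [])) v
        · rfl
        · obtain ⟨s, hs, h10⟩ := skip_spec h9
          have h11 : v &&& s < 2 ^ n := lt_of_le_of_lt Nat.and_le_left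
            (lt_of_lt_of_le hv1 (Nat.pow_le_pow_right (by norm_num) hn))
          rw [hpar _ h11, h7 s hs] at h10
          exact absurd h10 Bool.false_ne_true
      rw [h8, cond_false] at h5
      have h9 : childK m v (lastb v E 1 (0, 0, 0)) E (2 ^ 0) (chk m iv par n a f) =
        chk m iv par n a f (child m v (lastb v E 1 (0, 0, 0)) 0 E) := childK_eq _ _ _ _ _ _
      rw [pow_zero] at h9
      rw [h9] at h5
      -- the top bit
      have h10 : v.testBit (Nat.log 2 v) = true :=
        Nat.testBit_of_two_pow_le_and_two_pow_add_one_gt (Nat.pow_log_le_self 2 hv0)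
          (Nat.lt_pow_succ_log_self (by norm_num) v)
      have h11 : v < 2 ^ (Nat.log 2 v + 1) := Nat.lt_pow_succ_log_self (by norm_num) v
      have h12 : Nat.log 2 v < E.length := by
        by_contra h13
        have h14 := Nat.testBit_lt_two_pow (lt_of_lt_of_le hv1
          (Nat.pow_le_pow_right (by norm_num) (not_lt.1 h13)))
        rw [h10] at h14
        exact Bool.false_ne_true h14.symm
      obtain ⟨h13, h14, h15⟩ := c.child_spec hN h10 h11 E hE hEM h12 hv4
      exact ih _ N h13 h14 (by omega) (by omega) hNc h5 hHN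

end Code

end Pool.Agent.MP_d12f76_al.LB
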